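import Mathlib

/-! Duhamel operator on the Banach algebra `C([0,T], ℂ)`. -/

open Set MeasureTheory intervalIntegral

namespace H710NS

abbrev CT (T : ℝ) := C(Icc (0 : ℝ) T, ℂ)

variable {T : ℝ}

noncomputable def ext (hT : 0 ≤ T) (f : CT T) (s : ℝ) : ℂ := f (projIcc 0 T hT s)

lemma ext_cont (hT : 0 ≤ T) (f : CT T) : Continuous (ext hT f) :=
  f.continuous.comp continuous_projIcc

lemma ext_of_mem (hT : 0 ≤ T) (f : CT T) {s : ℝ} (hs : s ∈ Icc 0 T) : ext hT f s = f ⟨s, hs⟩ := by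
  unfold ext; rw [projIcc_of_mem]

lemma norm_ext_le (hT : 0 ≤ T) (f : CT T) (s : ℝ) : ‖ext hT f s‖ ≤ ‖f‖ := f.norm_coe_le_norm _

noncomputable def ex (T : ℝ) (c : ℂ) : CT T :=
  ⟨fun t => Complex.exp (c * (t : ℝ)), by fun_prop⟩

@[simp] lemma ex_apply (c : ℂ) (t : Icc (0 : ℝ) T) : ex T c t = Complex.exp (c * (t : ℝ)) := rfl

noncomputable def tau (T : ℝ) : CT T := ⟨fun t => ((t : ℝ) : ℂ), by fun_prop⟩

lemma ex_eq (c : ℂ) : ex T c = NormedSpace.exp (c • tau T) := by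
  ext t
  have := NormedSpace.map_exp (ContinuousMap.evalAlgHom ℂ ℂ t)
    (continuous_eval_const t) (c • tau T)
  simp only [ContinuousMap.evalAlgHom_apply] at this
  rw [this, ex_apply, Complex.exp_eq_exp_ℂ]
  rfl

lemma ex_diff : Differentiable ℂ (ex T) := by
  have : ex T = fun c : ℂ => NormedSpace.exp (c • tau T) := funext ex_eq
  rw [this]
  exact differentiable_exp_smul_const ℂ (tau T)

lemma norm_ex_le (c : ℂ) (hc : c.re ≤ 0) : ‖ex T c‖ ≤ 1 := by
  refine (ContinuousMap.norm_le _ zero_le_one).2 fun t => ?_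
  rw [ex_apply, Complex.norm_exp, Real.exp_le_one_iff]
  simp only [Complex.mul_re, Complex.ofReal_re, Complex.ofReal_im, mul_zero, sub_zero]
  exact mul_nonpos_of_nonpos_of_nonneg hc t.2.1

noncomputable def Ilin (hT : 0 ≤ T) : CT T →ₗ[ℂ] CT T where
  toFun f := ⟨fun t => ∫ s in (0 : ℝ)..(t : ℝ), ext hT f s,
    (continuous_primitive (fun a b => (ext_cont hT f).intervalIntegrable a b) 0).comp
      continuous_subtype_val⟩
  map_add' f g := by
    ext t
    simp only [ContinuousMap.coe_mk, ContinuousMap.add_apply]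
    rw [← integral_add ((ext_cont hT f).intervalIntegrable _ _)
      ((ext_cont hT g).intervalIntegrable _ _)]
    rfl
  map_smul' c f := by
    ext t
    simp only [ContinuousMap.coe_mk, ContinuousMap.smul_apply, RingHom.id_apply]
    rw [← intervalIntegral.integral_smul]
    rfl

noncomputable def Iop (hT : 0 ≤ T) : CT T →L[ℂ] CT T :=
  (Ilin hT).mkContinuous T (fun f => by
    refine (ContinuousMap.norm_le _ (by positivity)).2 fun t => ?_
    have := intervalIntegral.norm_integral_le_of_norm_le_const (a := 0) (b := (t : ℝ))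
      (f := ext hT f) (C := ‖f‖) (fun s _ => norm_ext_le hT f s)
    refine this.trans ?_
    rw [sub_zero, abs_of_nonneg t.2.1, mul_comm]
    exact mul_le_mul_of_nonneg_right t.2.2 (norm_nonneg _))

lemma Iop_apply (hT : 0 ≤ T) (f : CT T) (t : Icc (0 : ℝ) T) :
    Iop hT f t = ∫ s in (0 : ℝ)..(t : ℝ), ext hT f s := rfl

noncomputable def duh (hT : 0 ≤ T) (μ : ℂ) (R : CT T) : CT T :=
  ex T (-μ) * Iop hT (ex T μ * R)

lemma duh_apply (hT : 0 ≤ T) (μ : ℂ) (R : CT T) (t : Icc (0 : ℝ) T) :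
    duh hT μ R t = ∫ s in (0 : ℝ)..(t : ℝ), Complex.exp (-μ * ((t : ℝ) - s)) * ext hT R s := by
  unfold duh
  rw [ContinuousMap.mul_apply, Iop_apply, ex_apply, ← intervalIntegral.integral_const_mul]
  refine integral_congr fun s hs => ?_
  rw [uIcc_of_le t.2.1] at hs
  have hs' : s ∈ Icc 0 T := ⟨hs.1, hs.2.trans t.2.2⟩
  simp only [ext_of_mem hT _ hs', ContinuousMap.mul_apply, ex_apply]
  rw [← mul_assoc, ← Complex.exp_add]
  congr 2; ring

lemma duh_sum (hT : 0 ≤ T) (μ : ℂ) {ι : Type*} (s : Finset ι) (w : ι → ℂ) (R : ι → CT T) :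
    ∑ i ∈ s, w i • duh hT μ (R i) = duh hT μ (∑ i ∈ s, w i • R i) := by
  unfold duh
  rw [Finset.mul_sum, map_sum, Finset.mul_sum]
  refine Finset.sum_congr rfl fun i _ => ?_
  rw [mul_smul_comm, map_smul, mul_smul_comm]

lemma duh_zero (hT : 0 ≤ T) (μ : ℂ) : duh hT μ 0 = 0 := by simp [duh]

lemma duh_neg (hT : 0 ≤ T) (μ : ℂ) (R : CT T) : duh hT μ (-R) = - duh hT μ R := by
  unfold duh
  have h : ∀ a b : CT T, a * -b = -(a * b) := fun a b => by ring
  rw [h, map_neg, h]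

lemma duh_diff (hT : 0 ≤ T) {U : Set ℂ} {μ : ℂ → ℂ} {R : ℂ → CT T}
    (hμ : DifferentiableOn ℂ μ U) (hR : DifferentiableOn ℂ R U) :
    DifferentiableOn ℂ (fun δ => duh hT (μ δ) (R δ)) U := by
  unfold duh
  refine DifferentiableOn.mul (ex_diff.comp_differentiableOn hμ.neg) ?_
  exact (Iop hT).differentiable.comp_differentiableOn
    (DifferentiableOn.mul (ex_diff.comp_differentiableOn hμ) hR)

lemma integral_exp_le (m t : ℝ) (hm : 0 < m) :
    ∫ s in (0 : ℝ)..t, Real.exp (-m * (t - s)) ≤ 1 / m := by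
  have h : ∀ s ∈ uIcc (0 : ℝ) t,
      HasDerivAt (fun s => Real.exp (-m * (t - s)) / m) (Real.exp (-m * (t - s))) s := by
    intro s _
    have h1 : HasDerivAt (fun s => -m * (t - s)) m s := by
      simpa using ((hasDerivAt_id s).const_sub t).const_mul (-m)
    have h2 := (h1.exp).div_const m
    rwa [mul_div_assoc, div_self hm.ne', mul_one] at h2
  rw [integral_eq_sub_of_hasDerivAt h (by apply Continuous.intervalIntegrable; fun_prop)]
  simp only [sub_self, mul_zero, Real.exp_zero]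
  have : 0 ≤ Real.exp (-m * (t - 0)) / m := by positivity
  linarith

/-- weighted bound for a Duhamel integral -/
lemma norm_duh_integral_le (μ : ℂ) (Λ B t : ℝ) (ht : 0 ≤ t) (hμ : 0 < μ.re + Λ) (hB : 0 ≤ B)
    (r : ℝ → ℂ) (hr : ∀ s ∈ Icc 0 t, ‖r s‖ ≤ B * Real.exp (Λ * s)) :
    ‖∫ s in (0 : ℝ)..t, Complex.exp (-μ * ((t : ℝ) - s)) * r s‖ ≤
      B / (μ.re + Λ) * Real.exp (Λ * t) := by
  have h1 : ‖∫ s in (0 : ℝ)..t, Complex.exp (-μ * ((t : ℝ) - s)) * r s‖ ≤
      ∫ s in (0 : ℝ)..t, (B * Real.exp (Λ * t)) * Real.exp (-(μ.re + Λ) * (t - s)) := by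
    refine norm_integral_le_of_norm_le ht (Filter.Eventually.of_forall fun s hs => ?_)
      (by apply Continuous.intervalIntegrable; fun_prop)
    rw [norm_mul, Complex.norm_exp]
    have h2 : (-μ * ((t : ℂ) - s)).re = -μ.re * (t - s) := by simp
    rw [h2]
    calc Real.exp (-μ.re * (t - s)) * ‖r s‖ ≤ Real.exp (-μ.re * (t - s)) * (B * Real.exp (Λ * s)) :=
          mul_le_mul_of_nonneg_left (hr s ⟨hs.1.le, hs.2⟩) (Real.exp_pos _).le
      _ = B * (Real.exp (-μ.re * (t - s)) * Real.exp (Λ * s)) := by ring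
      _ = B * (Real.exp (Λ * t) * Real.exp (-(μ.re + Λ) * (t - s))) := by
          rw [← Real.exp_add, ← Real.exp_add]; congr 2; ring
      _ = _ := by ring
  refine h1.trans ?_
  rw [intervalIntegral.integral_const_mul]
  calc _ ≤ B * Real.exp (Λ * t) * (1 / (μ.re + Λ)) :=
        mul_le_mul_of_nonneg_left (integral_exp_le _ t hμ) (by positivity)
    _ = _ := by ring

lemma norm_duh_le (hT : 0 ≤ T) (μ : ℂ) (hμ : 0 < μ.re) (R : CT T) :
    ‖duh hT μ R‖ ≤ ‖R‖ / μ.re := by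
  refine (ContinuousMap.norm_le _ (by positivity)).2 fun t => ?_
  rw [duh_apply]
  have := norm_duh_integral_le μ 0 ‖R‖ t t.2.1 (by simpa using hμ) (norm_nonneg _) (ext hT R)
    (fun s _ => by simpa using norm_ext_le hT R s)
  simpa using this

/-- variation of constants -/
lemma ode_sol (μ : ℂ) (y r : ℝ → ℂ) (hy : ContinuousOn y (Icc 0 T))
    (hr : ContinuousOn r (Icc 0 T))
    (hd : ∀ t ∈ Ioo 0 T, HasDerivAt y (-μ * y t + r t) t) (t : ℝ) (ht : t ∈ Icc 0 T) :
    y t = Complex.exp (-μ * t) * y 0 +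
      ∫ s in (0 : ℝ)..t, Complex.exp (-μ * ((t : ℝ) - s)) * r s := by
  have hsub : Icc 0 t ⊆ Icc 0 T := Icc_subset_Icc_right ht.2
  have h := integral_eq_sub_of_hasDerivAt_of_le (f := fun s : ℝ =>
      Complex.exp (-μ * ((t : ℂ) - s)) * y s)
    (f' := fun s : ℝ => Complex.exp (-μ * ((t : ℂ) - s)) * r s) ht.1
    (ContinuousOn.mul (by fun_prop) (hy.mono hsub))
    (fun s hs => by
      have h1 : HasDerivAt (fun s : ℝ => -μ * ((t : ℂ) - s)) μ s := by
        simpa using ((Complex.ofRealCLM.hasDerivAt (x := s)).const_sub (t : ℂ)).const_mul (-μ)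
      have h2 := (h1.cexp).mul (hd s ⟨hs.1, hs.2.trans_le ht.2⟩)
      have h3 : Complex.exp (-μ * ((t : ℂ) - s)) * r s =
          Complex.exp (-μ * ((t : ℂ) - s)) * μ * y s +
            Complex.exp (-μ * ((t : ℂ) - s)) * (-μ * y s + r s) := by ring
      rw [h3]
      exact h2)
    (by
      apply ContinuousOn.intervalIntegrable
      rw [uIcc_of_le ht.1]
      exact ContinuousOn.mul (by fun_prop) (hr.mono hsub))
  rw [h]
  simp

lemma ode_sol_duh (hT : 0 ≤ T) (μ : ℂ) (y : ℝ → ℂ) (R : CT T) (hy : ContinuousOn y (Icc 0 T))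
    (hd : ∀ t (ht : t ∈ Ioo 0 T), HasDerivAt y (-μ * y t + R ⟨t, Ioo_subset_Icc_self ht⟩) t)
    (t : Icc (0 : ℝ) T) : y t = (y 0 • ex T (-μ) + duh hT μ R) t := by
  rw [ode_sol μ y (ext hT R) hy (ext_cont hT R).continuousOn (fun s hs => by
    rw [ext_of_mem hT R (Ioo_subset_Icc_self hs)]; exact hd s hs) t t.2]
  rw [ContinuousMap.add_apply, duh_apply, ContinuousMap.smul_apply, ex_apply, smul_eq_mul,
    mul_comm]

/-- real nonnegative functions -/
def Pos (f : CT T) : Prop := ∀ t, (f t).im = 0 ∧ 0 ≤ (f t).re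

lemma duh_real (hT : 0 ≤ T) (m : ℝ) (R : CT T) (hR : Pos R) (t : Icc (0 : ℝ) T) :
    duh hT m R t = ((∫ s in (0 : ℝ)..(t : ℝ),
      Real.exp (-m * ((t : ℝ) - s)) * (ext hT R s).re : ℝ) : ℂ) := by
  rw [duh_apply, ← intervalIntegral.integral_ofReal]
  refine integral_congr fun s _ => ?_
  have h1 : ext hT R s = ((ext hT R s).re : ℂ) := by
    apply Complex.ext <;> simp
    exact (hR _).1
  rw [Complex.ofReal_mul, ← h1]
  push_cast
  rfl

lemma duh_pos (hT : 0 ≤ T) (m : ℝ) (R : CT T) (hR : Pos R) : Pos (duh hT m R) := by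
  intro t
  rw [duh_real hT m R hR t]
  refine ⟨Complex.ofReal_im _, ?_⟩
  rw [Complex.ofReal_re]
  exact integral_nonneg t.2.1 fun s _ => mul_nonneg (Real.exp_pos _).le (hR _).2

lemma duh_lower (hT : 0 ≤ T) (m : ℝ) (hm : 0 ≤ m) (R : CT T) (hR : Pos R) (τ η ρ : ℝ)
    (hτ : 0 ≤ τ) (hη : 0 ≤ η) (hρ : 0 ≤ ρ)
    (hlow : ∀ s : Icc (0 : ℝ) T, τ ≤ s → ρ ≤ (R s).re) (t : Icc (0 : ℝ) T) (ht : τ + η ≤ t) :
    ρ * η * Real.exp (-m * η) ≤ (duh hT m R t).re := by
  rw [duh_real hT m R hR t, Complex.ofReal_re]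
  have hc : Continuous fun s : ℝ => Real.exp (-m * ((t : ℝ) - s)) * (ext hT R s).re := by
    have := ext_cont hT R
    fun_prop
  rw [← integral_add_adjacent_intervals (b := (t : ℝ) - η) (hc.intervalIntegrable _ _)
    (hc.intervalIntegrable _ _)]
  have h1 : 0 ≤ ∫ s in (0 : ℝ)..((t : ℝ) - η), Real.exp (-m * ((t : ℝ) - s)) * (ext hT R s).re :=
    integral_nonneg (by linarith) fun s _ => mul_nonneg (Real.exp_pos _).le (hR _).2
  have h2 : ∫ _ in ((t : ℝ) - η)..(t : ℝ), Real.exp (-m * η) * ρ ≤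
      ∫ s in ((t : ℝ) - η)..(t : ℝ), Real.exp (-m * ((t : ℝ) - s)) * (ext hT R s).re := by
    refine integral_mono_on (by linarith) (by simp) (hc.intervalIntegrable _ _) fun s hs => ?_
    have hs' : s ∈ Icc 0 T := ⟨by linarith [hs.1], hs.2.trans t.2.2⟩
    rw [ext_of_mem hT R hs']
    refine mul_le_mul (Real.exp_le_exp.2 ?_) (hlow _ (by simp only; linarith [hs.1])) hρ
      (Real.exp_pos _).le
    nlinarith [hs.1]
  rw [intervalIntegral.integral_const] at h2
  simp only [sub_sub_cancel, smul_eq_mul] at h2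
  nlinarith

end H710NS
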