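import Mathlib

/-! Fourier coefficients of smooth space-periodic functions on `ℝ^d × [0,T]`. -/

open Set MeasureTheory Filter UnitAddTorus
open scoped ContDiff Topology Real

namespace H710NS

noncomputable local instance instMS : MeasureSpace UnitAddCircle := ⟨AddCircle.haarAddCircle⟩

local instance instHaar : Measure.IsAddHaarMeasure (volume : Measure UnitAddCircle) :=
  inferInstanceAs (Measure.IsAddHaarMeasure AddCircle.haarAddCircle)

local instance instProb : IsProbabilityMeasure (volume : Measure UnitAddCircle) :=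
  inferInstanceAs (IsProbabilityMeasure AddCircle.haarAddCircle)

variable {d : Type*} [Fintype d] [DecidableEq d] {ℓ : d → ℝ} {T : ℝ}

/-- space-time slab -/
def Om (d : Type*) (T : ℝ) : Set ((d → ℝ) × ℝ) := univ ×ˢ Icc 0 T

omit [Fintype d] [DecidableEq d] in
lemma uniqueDiffOn_Om (hT : 0 < T) : UniqueDiffOn ℝ (Om d T) :=
  uniqueDiffOn_univ.prod (uniqueDiffOn_Icc hT)

omit [Fintype d] [DecidableEq d] in
lemma mem_Om {x : d → ℝ} {t : ℝ} (ht : t ∈ Icc 0 T) : (x, t) ∈ Om d T := ⟨mem_univ _, ht⟩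

structure Good (ℓ : d → ℝ) (T : ℝ) (f : (d → ℝ) × ℝ → ℂ) : Prop where
  smooth : ContDiffOn ℝ ∞ f (Om d T)
  per : ∀ x j t, t ∈ Icc 0 T → f (x + Pi.single j (ℓ j), t) = f (x, t)

noncomputable def DD (T : ℝ) (v : (d → ℝ) × ℝ) (f : (d → ℝ) × ℝ → ℂ) (z : (d → ℝ) × ℝ) : ℂ :=
  fderivWithin ℝ f (Om d T) z v

variable {f g : (d → ℝ) × ℝ → ℂ}

lemma Good.hasF (hf : Good ℓ T f) {z : (d → ℝ) × ℝ} (hz : z ∈ Om d T) :
    HasFDerivWithinAt f (fderivWithin ℝ f (Om d T) z) (Om d T) z :=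
  ((hf.smooth.differentiableOn (by simp)) z hz).hasFDerivWithinAt

lemma Good.DD (hT : 0 < T) (hf : Good ℓ T f) (v : (d → ℝ) × ℝ) : Good ℓ T (DD T v f) where
  smooth := (hf.smooth.fderivWithin (m := ∞) (uniqueDiffOn_Om hT) (by simp)).clm_apply
    contDiffOn_const
  per x j t ht := by
    unfold H710NS.DD
    congr 1
    symm
    refine HasFDerivWithinAt.fderivWithin ?_ (uniqueDiffOn_Om hT _ (mem_Om ht))
    have h1 := hf.hasF (mem_Om (x := x + Pi.single j (ℓ j)) ht)
    have h2 : HasFDerivWithinAt (fun w : (d → ℝ) × ℝ => w + (Pi.single j (ℓ j), 0))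
        (ContinuousLinearMap.id ℝ _) (Om d T) (x, t) :=
      ((hasFDerivAt_id _).add_const _).hasFDerivWithinAt
    have h3 := HasFDerivWithinAt.comp (x, t) (by simpa using h1) h2
      (t := Om d T) (fun w hw => ⟨mem_univ _, by simpa using hw.2⟩)
    refine HasFDerivWithinAt.congr (by simpa using h3) (fun w hw => ?_) ?_
    · have := hf.per w.1 j w.2 hw.2
      simp only [Function.comp]
      rw [← this]
      congr 1
      ext <;> simp
    · simp only [Function.comp]
      rw [← hf.per x j t ht]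
      congr 1
      ext <;> simp

lemma Good.hasDerivAt_x (hf : Good ℓ T f) (x e : d → ℝ) {t : ℝ} (ht : t ∈ Icc 0 T) (s : ℝ) :
    HasDerivAt (fun s : ℝ => f (x + s • e, t)) (H710NS.DD T (e, 0) f (x + s • e, t)) s := by
  have h1 : HasDerivAt (fun s : ℝ => (x + s • e, t)) (e, (0 : ℝ)) s := by
    refine HasDerivAt.prodMk ?_ (hasDerivAt_const _ _)
    simpa using ((hasDerivAt_id s).smul_const e).const_add x
  have h2 := (hf.hasF (mem_Om (x := x + s • e) ht)).comp_hasDerivWithinAt s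
    (h1.hasDerivWithinAt (s := univ)) (fun s _ => mem_Om ht)
  exact h2.hasDerivAt univ_mem

lemma Good.hasDerivAt_t (hf : Good ℓ T f) (x : d → ℝ) {t : ℝ} (ht : t ∈ Ioo 0 T) :
    HasDerivAt (fun s : ℝ => f (x, s)) (H710NS.DD T (0, 1) f (x, t)) t := by
  have h1 : HasDerivAt (fun s : ℝ => (x, s)) ((0 : d → ℝ), (1 : ℝ)) t :=
    HasDerivAt.prodMk (hasDerivAt_const _ _) (hasDerivAt_id _)
  have h2 := (hf.hasF (mem_Om (x := x) (Ioo_subset_Icc_self ht))).comp_hasDerivWithinAt t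
    (h1.hasDerivWithinAt (s := Icc 0 T)) (fun s hs => mem_Om hs)
  exact h2.hasDerivAt (Icc_mem_nhds ht.1 ht.2)

lemma Good.add (hf : Good ℓ T f) (hg : Good ℓ T g) : Good ℓ T (fun z => f z + g z) :=
  ⟨hf.smooth.add hg.smooth, fun x j t ht => by rw [hf.per x j t ht, hg.per x j t ht]⟩

lemma Good.mul (hf : Good ℓ T f) (hg : Good ℓ T g) : Good ℓ T (fun z => f z * g z) :=
  ⟨hf.smooth.mul hg.smooth, fun x j t ht => by rw [hf.per x j t ht, hg.per x j t ht]⟩

lemma Good.const_mul (hf : Good ℓ T f) (c : ℂ) : Good ℓ T (fun z => c * f z) :=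
  ⟨contDiffOn_const.mul hf.smooth, fun x j t ht => by rw [hf.per x j t ht]⟩

lemma Good.sum {ι : Type*} (s : Finset ι) {F : ι → (d → ℝ) × ℝ → ℂ}
    (hF : ∀ i ∈ s, Good ℓ T (F i)) : Good ℓ T (fun z => ∑ i ∈ s, F i z) :=
  ⟨ContDiffOn.sum fun i hi => (hF i hi).smooth, fun x j t ht =>
    Finset.sum_congr rfl fun i hi => (hF i hi).per x j t ht⟩

lemma Good.cont_x (hf : Good ℓ T f) {t : ℝ} (ht : t ∈ Icc 0 T) :
    Continuous fun x : d → ℝ => f (x, t) :=
  hf.smooth.continuousOn.comp_continuous (by fun_prop) fun _ => mem_Om ht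

noncomputable def sig (ℓ : d → ℝ) (y : UnitAddTorus d) : d → ℝ :=
  fun j => ℓ j * (AddCircle.equivIoc 1 0 (y j) : ℝ)

noncomputable def pr (ℓ : d → ℝ) (x : d → ℝ) : UnitAddTorus d :=
  fun j => ((x j / ℓ j : ℝ) : UnitAddCircle)

omit [Fintype d] [DecidableEq d] in
lemma pr_sig (hℓ : ∀ j, 0 < ℓ j) (y : UnitAddTorus d) : pr ℓ (sig ℓ y) = y := by
  funext j
  unfold pr sig
  rw [mul_div_cancel_left₀ _ (hℓ j).ne', AddCircle.coe_equivIoc]

omit [Fintype d] [DecidableEq d] in
lemma pr_add (x x' : d → ℝ) : pr ℓ (x + x') = pr ℓ x + pr ℓ x' := by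
  funext j
  simp only [pr, Pi.add_apply, add_div, AddCircle.coe_add]

lemma Good.per_int (hf : Good ℓ T f) {t : ℝ} (ht : t ∈ Icc 0 T) (m : d → ℤ) (x : d → ℝ) :
    f (x + fun j => m j * ℓ j, t) = f (x, t) := by
  have h1 : ∀ s : Finset d, Function.Periodic (fun x => f (x, t))
      (∑ j ∈ s, m j • (Pi.single j (ℓ j) : d → ℝ)) := by
    intro s
    induction s using Finset.induction_on with
    | empty => intro x; simp
    | insert a s ha ih =>
      rw [Finset.sum_insert ha]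
      have h2 : Function.Periodic (fun x => f (x, t)) (Pi.single a (ℓ a) : d → ℝ) :=
        fun x => hf.per x a t ht
      exact (h2.zsmul (m a)).add_period ih
  have h2 : (fun j => m j * ℓ j) = ∑ j, m j • (Pi.single j (ℓ j) : d → ℝ) := by
    funext i
    simp [Finset.sum_apply, Pi.single_apply]
  rw [h2]
  exact h1 Finset.univ x

lemma Good.eq_of_pr (hℓ : ∀ j, 0 < ℓ j) (hf : Good ℓ T f) {t : ℝ} (ht : t ∈ Icc 0 T)
    {x x' : d → ℝ} (h : pr ℓ x = pr ℓ x') : f (x, t) = f (x', t) := by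
  have h1 : ∀ j, ∃ m : ℤ, (m : ℝ) = x j / ℓ j - x' j / ℓ j := by
    intro j
    have h2 : ((x j / ℓ j - x' j / ℓ j : ℝ) : UnitAddCircle) = 0 := by
      rw [AddCircle.coe_sub, sub_eq_zero]; exact congrFun h j
    obtain ⟨m, hm⟩ := (AddCircle.coe_eq_zero_iff _).1 h2
    exact ⟨m, by simpa using hm⟩
  choose m hm using h1
  rw [← hf.per_int ht m x']
  congr 2
  funext j
  simp only [Pi.add_apply, hm]
  have := (hℓ j).ne'
  field_simp
  ring

lemma Good.cont_lift (hℓ : ∀ j, 0 < ℓ j) (hf : Good ℓ T f) {t : ℝ} (ht : t ∈ Icc 0 T) :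
    Continuous fun y : UnitAddTorus d => f (sig ℓ y, t) := by
  have hq : IsOpenQuotientMap (Pi.map (fun (_ : d) (x : ℝ) => (x : UnitAddCircle))) :=
    IsOpenQuotientMap.piMap fun _ => QuotientAddGroup.isOpenQuotientMap_mk
  rw [← hq.continuous_comp_iff]
  have : ((fun y : UnitAddTorus d => f (sig ℓ y, t)) ∘
      (Pi.map (fun (_ : d) (x : ℝ) => (x : UnitAddCircle)))) =
      fun x : d → ℝ => f (fun j => ℓ j * x j, t) := by
    funext x
    refine hf.eq_of_pr hℓ ht ?_
    rw [pr_sig hℓ]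
    funext j
    simp only [pr, Pi.map_apply]
    rw [mul_div_cancel_left₀ _ (hℓ j).ne']
  rw [this]
  exact (hf.cont_x ht).comp (by fun_prop)

lemma Good.bound (hℓ : ∀ j, 0 < ℓ j) (hf : Good ℓ T f) :
    ∃ M : ℝ, 0 ≤ M ∧ ∀ x t, t ∈ Icc 0 T → ‖f (x, t)‖ ≤ M := by
  have hK : IsCompact ((Set.pi univ fun j => Icc 0 (ℓ j)) ×ˢ Icc (0 : ℝ) T) :=
    (isCompact_univ_pi fun j => isCompact_Icc).prod isCompact_Icc
  obtain ⟨M, hM⟩ := hK.exists_bound_of_continuousOn
    (hf.smooth.continuousOn.mono (prod_mono (subset_univ _) Subset.rfl))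
  refine ⟨max M 0, le_max_right _ _, fun x t ht => ?_⟩
  rw [hf.eq_of_pr hℓ ht (pr_sig hℓ (pr ℓ x)).symm]
  refine (hM _ ⟨fun j _ => ?_, ht⟩).trans (le_max_left _ _)
  have h := (AddCircle.equivIoc 1 0 (pr ℓ x j)).2
  have h2 := hℓ j
  simp only [sig]
  constructor
  · exact mul_nonneg h2.le h.1.le
  · exact mul_le_of_le_one_right h2.le (h.2.trans_eq (zero_add 1))

/-- Fourier coefficient at time `t`. -/
noncomputable def co (ℓ : d → ℝ) (f : (d → ℝ) × ℝ → ℂ) (k : d → ℤ) (t : ℝ) : ℂ :=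
  ∫ y : UnitAddTorus d, mFourier (-k) y * f (sig ℓ y, t)

omit [DecidableEq d] in
lemma norm_mF (k : d → ℤ) (y : UnitAddTorus d) : ‖mFourier k y‖ = 1 := by
  simp [mFourier, fourier_apply]

lemma Good.integrable (hℓ : ∀ j, 0 < ℓ j) (hf : Good ℓ T f) {t : ℝ} (ht : t ∈ Icc 0 T)
    (k : d → ℤ) : Integrable fun y : UnitAddTorus d => mFourier k y * f (sig ℓ y, t) :=
  ((mFourier k).continuous.mul (hf.cont_lift hℓ ht)).integrable_of_hasCompactSupport
    (HasCompactSupport.of_compactSpace _)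

omit [DecidableEq d] in
lemma norm_co_le {M : ℝ} {t : ℝ} (hM : ∀ x, ‖f (x, t)‖ ≤ M) (k : d → ℤ) : ‖co ℓ f k t‖ ≤ M := by
  have := norm_integral_le_of_norm_le_const (μ := (volume : Measure (UnitAddTorus d)))
    (f := fun y => mFourier (-k) y * f (sig ℓ y, t)) (C := M)
    (Eventually.of_forall fun y => by rw [norm_mul, norm_mF, one_mul]; exact hM _)
  simpa [co] using this

omit [DecidableEq d] in
lemma co_congr {t : ℝ} (h : ∀ x, f (x, t) = g (x, t)) (k : d → ℤ) :
    co ℓ f k t = co ℓ g k t := by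
  simp only [co, h]

lemma co_add (hℓ : ∀ j, 0 < ℓ j) (hf : Good ℓ T f) (hg : Good ℓ T g) {t : ℝ} (ht : t ∈ Icc 0 T)
    (k : d → ℤ) : co ℓ (fun z => f z + g z) k t = co ℓ f k t + co ℓ g k t := by
  simp only [co, mul_add]
  exact integral_add (hf.integrable hℓ ht _) (hg.integrable hℓ ht _)

omit [DecidableEq d] in
lemma co_const_mul (c : ℂ) (t : ℝ) (k : d → ℤ) :
    co ℓ (fun z => c * f z) k t = c * co ℓ f k t := by
  simp only [co]
  rw [← integral_const_mul]
  congr 1; funext y; ring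

lemma co_sum (hℓ : ∀ j, 0 < ℓ j) {ι : Type*} (s : Finset ι) {F : ι → (d → ℝ) × ℝ → ℂ}
    (hF : ∀ i ∈ s, Good ℓ T (F i)) {t : ℝ} (ht : t ∈ Icc 0 T) (k : d → ℤ) :
    co ℓ (fun z => ∑ i ∈ s, F i z) k t = ∑ i ∈ s, co ℓ (F i) k t := by
  simp only [co, Finset.mul_sum]
  exact integral_finsetSum _ fun i hi => (hF i hi).integrable hℓ ht _

omit [DecidableEq d] in
lemma mF_add (k : d → ℤ) (y w : UnitAddTorus d) :
    mFourier k (y + w) = mFourier k y * mFourier k w := by
  simp only [mFourier, ContinuousMap.coe_mk, Pi.add_apply, fourier_apply, smul_add,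
    AddCircle.toCircle_add, Circle.coe_mul, Finset.prod_mul_distrib]

omit [DecidableEq d] in
lemma mF_pr (k : d → ℤ) (x : d → ℝ) :
    mFourier k (pr ℓ x) = Complex.exp (∑ j, 2 * π * Complex.I * k j * (x j / ℓ j : ℝ)) := by
  simp only [mFourier, ContinuousMap.coe_mk, pr, fourier_coe_apply, Complex.exp_sum]
  simp

/-- frequency -/
noncomputable def xi (ℓ : d → ℝ) (k : d → ℤ) (j : d) : ℝ := 2 * π * k j / ℓ j

lemma co_DD (hℓ : ∀ j, 0 < ℓ j) (hT : 0 < T) (hf : Good ℓ T f) {t : ℝ} (ht : t ∈ Icc 0 T)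
    (k : d → ℤ) (j : d) :
    co ℓ (DD T (Pi.single j 1, 0) f) k t = Complex.I * xi ℓ k j * co ℓ f k t := by
  set e : d → ℝ := Pi.single j 1 with he
  have hD := hf.DD hT (e, 0)
  obtain ⟨M, hM0, hM⟩ := hD.bound hℓ
  have hshift : ∀ {g : (d → ℝ) × ℝ → ℂ}, Good ℓ T g → ∀ (s : ℝ) (y : UnitAddTorus d),
      g (sig ℓ y + s • e, t) = g (sig ℓ (y + pr ℓ (s • e)), t) := by
    intro g hg s y
    refine hg.eq_of_pr hℓ ht ?_
    rw [pr_add, pr_sig hℓ, pr_sig hℓ]
  have h1 := (hasDerivAt_integral_of_dominated_loc_of_deriv_le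
    (μ := (volume : Measure (UnitAddTorus d))) (x₀ := (0 : ℝ)) (s := univ)
    (F := fun s y => mFourier (-k) y * f (sig ℓ y + s • e, t))
    (F' := fun s y => mFourier (-k) y * DD T (e, 0) f (sig ℓ y + s • e, t))
    (bound := fun _ => M) univ_mem
    (Eventually.of_forall fun s => by
      simp only [hshift hf]
      exact ((mFourier (-k)).continuous.mul
        ((hf.cont_lift hℓ ht).comp (continuous_add_const _))).aestronglyMeasurable)
    (by simpa using hf.integrable hℓ ht (-k))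
    (by simpa using (hD.integrable hℓ ht (-k)).aestronglyMeasurable)
    (Eventually.of_forall fun y s _ => by rw [norm_mul, norm_mF, one_mul]; exact hM _ _ ht)
    (integrable_const _)
    (Eventually.of_forall fun y s _ => (hf.hasDerivAt_x _ e ht s).const_mul _)).2
  have h2 : (fun s : ℝ => ∫ y : UnitAddTorus d, mFourier (-k) y * f (sig ℓ y + s • e, t)) =
      fun s : ℝ => Complex.exp (Complex.I * xi ℓ k j * s) * co ℓ f k t := by
    funext s
    simp only [hshift hf]
    have h3 := integral_add_right_eq_self (μ := (volume : Measure (UnitAddTorus d)))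
      (fun y => mFourier (-k) (y + -pr ℓ (s • e)) * f (sig ℓ y, t)) (pr ℓ (s • e))
    simp only [add_neg_cancel_right] at h3
    rw [h3, co, ← integral_const_mul]
    congr 1; funext y
    rw [mF_add]
    have h4 : mFourier (-k) (-pr ℓ (s • e)) = Complex.exp (Complex.I * xi ℓ k j * s) := by
      have h5 : -pr ℓ (s • e) = pr ℓ (-(s • e)) := by
        funext i; simp only [pr, Pi.neg_apply, neg_div, AddCircle.coe_neg]
      rw [h5, mF_pr]
      congr 1
      rw [Finset.sum_eq_single j]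
      · simp [he, xi]; ring
      · intro i _ hi; simp [he, Pi.single_eq_of_ne hi]
      · simp
    rw [h4]; ring
  rw [h2] at h1
  have h3 : HasDerivAt (fun s : ℝ => Complex.exp (Complex.I * xi ℓ k j * s) * co ℓ f k t)
      (Complex.I * xi ℓ k j * co ℓ f k t) 0 := by
    have h4 : HasDerivAt (fun s : ℝ => Complex.I * xi ℓ k j * s) (Complex.I * xi ℓ k j) 0 := by
      simpa using (Complex.ofRealCLM.hasDerivAt (x := (0 : ℝ))).const_mul (Complex.I * xi ℓ k j)
    simpa using h4.cexp.mul_const (co ℓ f k t)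
  rw [← h1.unique h3]
  simp [co]

lemma co_hasDerivAt (hℓ : ∀ j, 0 < ℓ j) (hT : 0 < T) (hf : Good ℓ T f) {t : ℝ}
    (ht : t ∈ Ioo 0 T) (k : d → ℤ) :
    HasDerivAt (co ℓ f k) (co ℓ (DD T (0, 1) f) k t) t := by
  have hD := hf.DD hT (0, 1)
  obtain ⟨M, hM0, hM⟩ := hD.bound hℓ
  have hI : Ioo 0 T ∈ 𝓝 t := Ioo_mem_nhds ht.1 ht.2
  exact (hasDerivAt_integral_of_dominated_loc_of_deriv_le
    (μ := (volume : Measure (UnitAddTorus d))) (x₀ := t) (s := Ioo 0 T)
    (F := fun s y => mFourier (-k) y * f (sig ℓ y, s))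
    (F' := fun s y => mFourier (-k) y * DD T (0, 1) f (sig ℓ y, s))
    (bound := fun _ => M) hI
    (by
      filter_upwards [hI] with s hs
      exact (hf.integrable hℓ (Ioo_subset_Icc_self hs) (-k)).aestronglyMeasurable)
    (hf.integrable hℓ (Ioo_subset_Icc_self ht) (-k))
    (hD.integrable hℓ (Ioo_subset_Icc_self ht) (-k)).aestronglyMeasurable
    (Eventually.of_forall fun y s hs => by
      rw [norm_mul, norm_mF, one_mul]; exact hM _ _ (Ioo_subset_Icc_self hs))
    (integrable_const _)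
    (Eventually.of_forall fun y s hs => (hf.hasDerivAt_t _ hs).const_mul _)).2

lemma co_continuousOn (hℓ : ∀ j, 0 < ℓ j) (hf : Good ℓ T f) (k : d → ℤ) :
    ContinuousOn (co ℓ f k) (Icc 0 T) := by
  obtain ⟨M, hM0, hM⟩ := hf.bound hℓ
  refine continuousOn_of_dominated (bound := fun _ => M)
    (fun s hs => (hf.integrable hℓ hs (-k)).aestronglyMeasurable)
    (fun s hs => Eventually.of_forall fun y => by
      rw [norm_mul, norm_mF, one_mul]; exact hM _ _ hs) (integrable_const _)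
    (Eventually.of_forall fun y => ContinuousOn.mul continuousOn_const ?_)
  exact hf.smooth.continuousOn.comp (by fun_prop) fun s hs => mem_Om hs

lemma co_decay (hℓ : ∀ j, 0 < ℓ j) (hT : 0 < T) (s : Finset d) :
    ∀ {f : (d → ℝ) × ℝ → ℂ}, Good ℓ T f → ∃ C : ℝ, ∀ k t, t ∈ Icc 0 T →
      (∏ j ∈ s, (1 + (k j : ℝ) ^ 2)) * ‖co ℓ f k t‖ ≤ C := by
  induction s using Finset.induction_on with
  | empty =>
    intro f hf
    obtain ⟨M, _, hM⟩ := hf.bound hℓ
    exact ⟨M, fun k t ht => by simpa using norm_co_le (fun x => hM x t ht) k⟩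
  | insert j s hj ih =>
    intro f hf
    have h1 := hf.DD hT (Pi.single j 1, 0)
    have h2 := h1.DD hT (Pi.single j 1, 0)
    obtain ⟨C, hC⟩ := ih (hf.add (h2.const_mul (-((ℓ j / (2 * π) : ℝ) : ℂ) ^ 2)))
    refine ⟨C, fun k t ht => ?_⟩
    have h3 := hC k t ht
    rw [co_add hℓ hf (h2.const_mul _) ht, co_const_mul, co_DD hℓ hT h1 ht, co_DD hℓ hT hf ht] at h3
    have h4 : co ℓ f k t + -((ℓ j / (2 * π) : ℝ) : ℂ) ^ 2 *
        (Complex.I * xi ℓ k j * (Complex.I * xi ℓ k j * co ℓ f k t)) =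
        ((1 + (k j : ℝ) ^ 2 : ℝ) : ℂ) * co ℓ f k t := by
      have hl : (ℓ j : ℂ) ≠ 0 := by exact_mod_cast (hℓ j).ne'
      have hp : (π : ℂ) ≠ 0 := by exact_mod_cast Real.pi_ne_zero
      unfold xi
      push_cast
      field_simp
      rw [Complex.I_sq]
      ring
    rw [h4, norm_mul, Complex.norm_real, Real.norm_eq_abs, abs_of_pos (by positivity)] at h3
    rw [Finset.prod_insert hj]
    linarith

omit [DecidableEq d] in
lemma summable_prod_inv : Summable fun k : d → ℤ => ∏ j, (1 + (k j : ℝ) ^ 2)⁻¹ := by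
  classical
  have h1 : Summable fun m : ℤ => (1 + (m : ℝ) ^ 2)⁻¹ := by
    have h2 : Summable fun m : ℤ => 1 / (m : ℝ) ^ 2 := Real.summable_one_div_int_pow.2 (by norm_num)
    refine Summable.of_norm_bounded_eventually h2 ?_
    have : ∀ᶠ m : ℤ in cofinite, m ≠ 0 := eventually_cofinite_ne 0
    filter_upwards [this] with m hm
    have h3 : (0 : ℝ) < (m : ℝ) ^ 2 := by positivity
    rw [Real.norm_eq_abs, abs_of_pos (by positivity), one_div]
    exact inv_anti₀ h3 (by linarith)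
  refine summable_of_sum_le (c := ∏ _j : d, ∑' m : ℤ, (1 + (m : ℝ) ^ 2)⁻¹)
    (fun k => Finset.prod_nonneg fun j _ => by positivity) fun S => ?_
  set t : Finset ℤ := S.biUnion fun k => Finset.univ.image k with ht
  calc ∑ k ∈ S, ∏ j, (1 + (k j : ℝ) ^ 2)⁻¹
      ≤ ∑ k ∈ Fintype.piFinset (fun _ : d => t), ∏ j, (1 + (k j : ℝ) ^ 2)⁻¹ := by
        refine Finset.sum_le_sum_of_subset_of_nonneg (fun k hk => ?_)
          fun k _ _ => Finset.prod_nonneg fun j _ => by positivity
        rw [Fintype.mem_piFinset]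
        intro j
        exact Finset.mem_biUnion.2 ⟨k, hk, Finset.mem_image.2 ⟨j, Finset.mem_univ _, rfl⟩⟩
    _ = ∏ _j : d, ∑ m ∈ t, (1 + (m : ℝ) ^ 2)⁻¹ :=
        (Finset.prod_univ_sum (fun _ : d => t) fun _ m => (1 + (m : ℝ) ^ 2)⁻¹).symm
    _ ≤ _ := Finset.prod_le_prod (fun _ _ => Finset.sum_nonneg fun m _ => by positivity)
        fun _ _ => h1.sum_le_tsum t fun m _ => by positivity

lemma co_majorant (hℓ : ∀ j, 0 < ℓ j) (hT : 0 < T) (hf : Good ℓ T f) :
    ∃ m : (d → ℤ) → ℝ, Summable m ∧ ∀ k t, t ∈ Icc 0 T → ‖co ℓ f k t‖ ≤ m k := by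
  obtain ⟨C, hC⟩ := co_decay hℓ hT Finset.univ hf
  refine ⟨fun k => C * ∏ j, (1 + (k j : ℝ) ^ 2)⁻¹, summable_prod_inv.mul_left C,
    fun k t ht => ?_⟩
  have hpos : 0 < ∏ j, (1 + (k j : ℝ) ^ 2) := Finset.prod_pos fun j _ => by positivity
  simp only
  rw [Finset.prod_inv_distrib, ← div_eq_mul_inv, le_div_iff₀ hpos, mul_comm]
  exact hC k t ht

lemma co_mul (hℓ : ∀ j, 0 < ℓ j) (hT : 0 < T) (hf : Good ℓ T f) (hg : Good ℓ T g) {t : ℝ}
    (ht : t ∈ Icc 0 T) (k : d → ℤ) :
    HasSum (fun l => co ℓ f l t * co ℓ g (k - l) t) (co ℓ (fun z => f z * g z) k t) := by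
  obtain ⟨m, hm, hfm⟩ := co_majorant hℓ hT hf
  obtain ⟨M, hM0, hM⟩ := hg.bound hℓ
  set F : C(UnitAddTorus d, ℂ) := ⟨fun y => f (sig ℓ y, t), hf.cont_lift hℓ ht⟩ with hF
  have hco : ∀ l, mFourierCoeff F l = co ℓ f l t := fun l => rfl
  have hs : Summable (mFourierCoeff F) :=
    Summable.of_norm_bounded hm fun l => by rw [hco]; exact hfm l t ht
  have h1 := hasSum_integral_of_summable_integral_norm (μ := (volume : Measure (UnitAddTorus d)))
    (F := fun l y => co ℓ f l t * (mFourier (-(k - l)) y * g (sig ℓ y, t)))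
    (fun l => (hg.integrable hℓ ht _).const_mul _)
    (Summable.of_nonneg_of_le (fun l => integral_nonneg fun y => norm_nonneg _) (fun l => by
      have := norm_integral_le_of_norm_le_const (μ := (volume : Measure (UnitAddTorus d)))
        (f := fun y => ‖co ℓ f l t * (mFourier (-(k - l)) y * g (sig ℓ y, t))‖) (C := m l * M)
        (Eventually.of_forall fun y => by
          rw [norm_norm, norm_mul, norm_mul, norm_mF, one_mul]
          exact mul_le_mul (hfm l t ht) (hM _ _ ht) (norm_nonneg _)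
            ((norm_nonneg _).trans (hfm l t ht)))
      simp only [probReal_univ, mul_one] at this
      exact (le_abs_self _).trans this) (hm.mul_right M))
  simp only [integral_const_mul] at h1
  have h2 : ∀ y : UnitAddTorus d,
      ∑' l, co ℓ f l t * (mFourier (-(k - l)) y * g (sig ℓ y, t)) =
        mFourier (-k) y * (f (sig ℓ y, t) * g (sig ℓ y, t)) := by
    intro y
    have h3 := (hasSum_mFourier_series_apply_of_summable hs y).mul_right
      (mFourier (-k) y * g (sig ℓ y, t))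
    refine HasSum.tsum_eq ?_
    have e1 : (fun l => co ℓ f l t * (mFourier (-(k - l)) y * g (sig ℓ y, t))) =
        fun l => mFourierCoeff F l • mFourier l y * (mFourier (-k) y * g (sig ℓ y, t)) := by
      funext l
      rw [hco, neg_sub, sub_eq_add_neg, mFourier_add, smul_eq_mul]; ring
    have e2 : mFourier (-k) y * (f (sig ℓ y, t) * g (sig ℓ y, t)) =
        F y * (mFourier (-k) y * g (sig ℓ y, t)) := by
      simp only [hF, ContinuousMap.coe_mk]; ring
    rw [e1, e2]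
    exact h3
  simp only [h2] at h1
  exact h1

omit [DecidableEq d] in
/-- Fourier coefficients of a pure mode. -/
lemma integral_mF [DecidableEq (d → ℤ)] (k l : d → ℤ) :
    ∫ y : UnitAddTorus d, mFourier (-k) y * mFourier l y = if k = l then 1 else 0 := by
  have := (orthonormal_iff_ite.1 (orthonormal_mFourier (d := d))) k l
  rw [ContinuousMap.inner_toLp] at this
  simp only [← mFourier_neg] at this
  rw [← this]
  congr 1; funext y; ring

omit [DecidableEq d] in
lemma co_modes (hℓ : ∀ j, 0 < ℓ j) {ι : Type*} (s : Finset ι) (c : ι → ℂ) (l : ι → d → ℤ) {t : ℝ}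
    (h : ∀ x, f (x, t) = ∑ i ∈ s, c i * mFourier (l i) (pr ℓ x)) (k : d → ℤ) :
    co ℓ f k t = ∑ i ∈ s, c i * if k = l i then 1 else 0 := by
  simp only [co, h, pr_sig hℓ, Finset.mul_sum]
  rw [integral_finsetSum]
  · refine Finset.sum_congr rfl fun i _ => ?_
    rw [← integral_mF, ← integral_const_mul]
    congr 1; funext y; ring
  · intro i _
    refine Continuous.integrable_of_hasCompactSupport ?_ (HasCompactSupport.of_compactSpace _)
    fun_prop

end H710NS
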