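import Mathlib

/-! Interpolation lemma: a family of holomorphic functions with exponential upper bounds and an
exponential lower bound at `0` cannot decay superexponentially on a set of positive measure. -/

open Set Metric MeasureTheory Filter Finset
open scoped Nat

namespace H710NS

lemma norm_le_of_zeros (c : ℂ) (r : ℝ) (hr : 0 < r) (U : Set ℂ) (hU : IsOpen U)
    (hcU : closedBall c r ⊆ U) (z0 : ℂ) (hz0 : z0 ∈ closedBall c r) (s : Finset ℂ) :
    (∀ x ∈ s, x ∈ ball c r) → ∀ (F : ℂ → ℂ) (M : ℝ), DifferentiableOn ℂ F U →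
      (∀ x ∈ s, F x = 0) → (∀ ζ ∈ sphere c r, ‖F ζ‖ ≤ M * ∏ x ∈ s, ‖ζ - x‖) →
      ‖F z0‖ ≤ M * ∏ x ∈ s, ‖z0 - x‖ := by
  classical
  induction s using Finset.induction_on with
  | empty =>
    intro _ F M hF _ hM
    simp only [Finset.prod_empty, mul_one] at hM ⊢
    refine Complex.norm_le_of_forall_mem_frontier_norm_le (U := ball c r) isBounded_ball ?_ ?_ ?_
    · refine DifferentiableOn.diffContOnCl ?_
      rw [closure_ball c hr.ne']
      exact hF.mono hcU
    · rw [frontier_ball c hr.ne']; exact hM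
    · rw [closure_ball c hr.ne']; exact hz0
  | insert a s ha ih =>
    intro hs F M hF h0 hM
    have haB : a ∈ ball c r := hs a (Finset.mem_insert_self _ _)
    have haU : U ∈ nhds a := hU.mem_nhds (hcU (ball_subset_closedBall haB))
    have hFa : F a = 0 := h0 a (Finset.mem_insert_self _ _)
    have hG : DifferentiableOn ℂ (dslope F a) U := (Complex.differentiableOn_dslope haU).2 hF
    have key : ∀ z, F z = (z - a) * dslope F a z := by
      intro z
      have := sub_smul_dslope F a z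
      rw [hFa, sub_zero, smul_eq_mul] at this
      exact this.symm
    have h1 := ih (fun x hx => hs x (Finset.mem_insert_of_mem hx)) (dslope F a) M hG
      (by
        intro x hx
        have hxa : x - a ≠ 0 := sub_ne_zero.2 (fun h => ha (h ▸ hx))
        have := h0 x (Finset.mem_insert_of_mem hx)
        rw [key x] at this
        exact (mul_eq_zero.1 this).resolve_left hxa)
      (by
        intro ζ hζ
        have hne : ζ - a ≠ 0 := by
          intro h
          have : ζ = a := sub_eq_zero.1 h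
          rw [this] at hζ
          rw [mem_sphere] at hζ
          rw [mem_ball] at haB
          linarith
        have hpos : 0 < ‖ζ - a‖ := norm_pos_iff.2 hne
        have := hM ζ hζ
        rw [key ζ, norm_mul, Finset.prod_insert ha] at this
        have h2 : ‖ζ - a‖ * ‖dslope F a ζ‖ ≤ ‖ζ - a‖ * (M * ∏ x ∈ s, ‖ζ - x‖) := by
          calc _ ≤ _ := this
            _ = _ := by ring
        exact le_of_mul_le_mul_left h2 hpos)
    rw [key z0, norm_mul, Finset.prod_insert ha]
    calc ‖z0 - a‖ * ‖dslope F a z0‖ ≤ ‖z0 - a‖ * (M * ∏ x ∈ s, ‖z0 - x‖) :=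
          mul_le_mul_of_nonneg_left h1 (norm_nonneg _)
      _ = _ := by ring

lemma prod_abs_sub (j : ℕ) : ∀ d, j ≤ d →
    ∏ i ∈ (range (d + 1)).erase j, |(j : ℝ) - i| = (j ! : ℝ) * ((d - j)! : ℝ) := by
  intro d hd
  induction d, hd using Nat.le_induction with
  | base =>
    have : (range (j + 1)).erase j = range j := by
      rw [Finset.range_add_one, Finset.erase_insert (by simp)]
    rw [this]
    simp only [Nat.sub_self, Nat.factorial_zero, Nat.cast_one, mul_one]
    rw [← Finset.prod_range_add_one_eq_factorial, Nat.cast_prod, ← Finset.prod_range_reflect]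
    refine Finset.prod_congr rfl fun i hi => ?_
    have hi' : i < j := Finset.mem_range.1 hi
    have h1 : ((j - 1 - i : ℕ) : ℝ) = j - 1 - i := by
      rw [Nat.cast_sub (by omega), Nat.cast_sub (by omega)]; simp
    rw [h1]
    push_cast
    rw [abs_of_nonneg (by have : (0:ℝ) ≤ i := Nat.cast_nonneg i; linarith)]
    ring
  | succ d hd ih =>
    have : (range (d + 1 + 1)).erase j = insert (d + 1) ((range (d + 1)).erase j) := by
      ext i
      simp only [Finset.mem_erase, Finset.mem_range, Finset.mem_insert]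
      omega
    rw [this, Finset.prod_insert (by simp), ih]
    have h2 : d + 1 - j = (d - j) + 1 := by omega
    rw [h2, Nat.factorial_succ]
    have h3 : ((d - j : ℕ) : ℝ) = d - j := Nat.cast_sub hd
    have h4 : (j : ℝ) ≤ d := by exact_mod_cast hd
    push_cast
    rw [h3, abs_of_nonpos (by linarith)]
    ring

lemma exists_points (ρ s : ℝ) (hs : 0 < s) : ∀ (d : ℕ) (E : Set ℝ), E ⊆ Icc 0 ρ →
    ENNReal.ofReal (2 * d * s) < volume E →
    ∃ x : ℕ → ℝ, (∀ i ≤ d, x i ∈ E) ∧ ∀ i < d, x i + s ≤ x (i + 1) := by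
  intro d
  induction d with
  | zero =>
    intro E _ h
    have hne : E.Nonempty := by
      by_contra hh
      rw [Set.not_nonempty_iff_eq_empty] at hh
      simp [hh] at h
    obtain ⟨a, ha⟩ := hne
    exact ⟨fun _ => a, fun _ _ => ha, fun i hi => absurd hi (Nat.not_lt_zero _)⟩
  | succ d ih =>
    intro E hE h
    have hne : E.Nonempty := by
      by_contra hh
      rw [Set.not_nonempty_iff_eq_empty] at hh
      simp [hh] at h
    have hbdd : BddAbove E := ⟨ρ, fun x hx => (hE hx).2⟩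
    obtain ⟨y, hyE, hy⟩ := exists_lt_of_lt_csSup hne (show sSup E - s < sSup E by linarith)
    set E' := E ∩ Iic (y - s) with hE'
    have hsub : E ⊆ E' ∪ Ioc (sSup E - 2 * s) (sSup E) := by
      intro x hx
      by_cases hxy : x ≤ y - s
      · exact Or.inl ⟨hx, hxy⟩
      · exact Or.inr ⟨by push Not at hxy; linarith, le_csSup hbdd hx⟩
    have hvol : volume E ≤ volume E' + ENNReal.ofReal (2 * s) := by
      calc volume E ≤ volume (E' ∪ Ioc (sSup E - 2 * s) (sSup E)) := measure_mono hsub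
        _ ≤ volume E' + volume (Ioc (sSup E - 2 * s) (sSup E)) := measure_union_le _ _
        _ = _ := by rw [Real.volume_Ioc]; congr 2; ring
    have h' : ENNReal.ofReal (2 * d * s) < volume E' := by
      by_contra hh
      push Not at hh
      have : volume E ≤ ENNReal.ofReal (2 * (d + 1 : ℕ) * s) := by
        calc volume E ≤ ENNReal.ofReal (2 * d * s) + ENNReal.ofReal (2 * s) :=
              hvol.trans (add_le_add_left hh _)
          _ = _ := by
            rw [← ENNReal.ofReal_add (by positivity) (by positivity)]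
            congr 1; push_cast; ring
      exact absurd h (not_lt.2 this)
    obtain ⟨x, hx1, hx2⟩ := ih E' (Set.inter_subset_left.trans hE) h'
    refine ⟨fun i => if i ≤ d then x i else y, ?_, ?_⟩
    · intro i _
      by_cases hi : i ≤ d
      · simp only [hi, if_true]; exact (hx1 i hi).1
      · simp only [hi, if_false]; exact hyE
    · intro i hi
      by_cases hi' : i < d
      · have h1 : i ≤ d := hi'.le
        have h2 : i + 1 ≤ d := hi'
        simp only [h1, h2, if_true]; exact hx2 i hi'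
      · have h1 : i = d := by omega
        subst h1
        have h2 : ¬ (i + 1 ≤ i) := by omega
        simp only [le_refl, h2, if_true, if_false]
        have := (hx1 i le_rfl).2
        simp only [Set.mem_Iic] at this
        linarith

lemma spacing (x : ℕ → ℝ) (s : ℝ) (d : ℕ) (hx : ∀ i < d, x i + s ≤ x (i + 1)) :
    ∀ i j, i ≤ j → j ≤ d → x i + (j - i : ℝ) * s ≤ x j := by
  intro i j hij
  induction j, hij using Nat.le_induction with
  | base => intro _; simp
  | succ j hij ih =>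
    intro hj
    have := ih (by omega)
    have h2 := hx j (by omega)
    push_cast
    linarith

lemma spacing_abs (x : ℕ → ℝ) (s : ℝ) (_hs : 0 ≤ s) (d : ℕ) (hx : ∀ i < d, x i + s ≤ x (i + 1))
    (i j : ℕ) (hi : i ≤ d) (hj : j ≤ d) : |(j : ℝ) - i| * s ≤ |x j - x i| := by
  rcases le_total i j with h | h
  · have := spacing x s d hx i j h hj
    have h' : (i : ℝ) ≤ j := by exact_mod_cast h
    rw [abs_of_nonneg (by linarith)]
    exact le_trans (by linarith) (le_abs_self _)
  · have := spacing x s d hx j i h hi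
    have h' : (j : ℝ) ≤ i := by exact_mod_cast h
    rw [abs_of_nonpos (by linarith), abs_sub_comm]
    exact le_trans (by linarith) (le_abs_self _)

/-- Lagrange interpolation function. -/
noncomputable def lag (x : ℕ → ℝ) (y : ℕ → ℂ) (d : ℕ) (z : ℂ) : ℂ :=
  ∑ j ∈ range (d + 1), y j * ∏ i ∈ (range (d + 1)).erase j, (z - x i) / ((x j : ℂ) - x i)

lemma lag_diff (x : ℕ → ℝ) (y : ℕ → ℂ) (d : ℕ) : Differentiable ℂ (lag x y d) := by
  unfold lag
  refine Differentiable.fun_sum fun j _ => ?_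
  refine Differentiable.const_mul ?_ _
  refine Differentiable.fun_finsetProd fun i _ => ?_
  exact (differentiable_id.sub_const _).div_const _

lemma lag_node (x : ℕ → ℝ) (y : ℕ → ℂ) (d : ℕ)
    (hinj : ∀ i ≤ d, ∀ j ≤ d, i ≠ j → x i ≠ x j) (k : ℕ) (hk : k ≤ d) :
    lag x y d (x k) = y k := by
  unfold lag
  rw [Finset.sum_eq_single k]
  · rw [Finset.prod_eq_one, mul_one]
    intro i hi
    rw [Finset.mem_erase, Finset.mem_range] at hi
    apply div_self
    rw [sub_ne_zero]
    exact_mod_cast hinj k hk i (by omega) (Ne.symm hi.1)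
  · intro j hj hjk
    rw [Finset.prod_eq_zero (i := k), mul_zero]
    · rw [Finset.mem_erase, Finset.mem_range]; exact ⟨Ne.symm hjk, by omega⟩
    · simp
  · intro h; exact absurd (Finset.mem_range.2 (by omega)) h

lemma lag_bound (x : ℕ → ℝ) (y : ℕ → ℂ) (d : ℕ) (η B θ : ℝ) (hη : 0 < η) (hB : 0 ≤ B)
    (hθ : 0 ≤ θ) (hx : ∀ i < d, x i + η / (2 * (d + 1)) ≤ x (i + 1))
    (hy : ∀ j ≤ d, ‖y j‖ ≤ θ) (z : ℂ) (hz : ∀ i ≤ d, ‖z - x i‖ ≤ B) :
    ‖lag x y d z‖ ≤ θ * Real.exp 1 * (8 * Real.exp 1 * B / η) ^ d * 2 := by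
  set s : ℝ := η / (2 * (d + 1)) with hs
  have hs0 : 0 < s := by positivity
  have hterm : ∀ j ∈ range (d + 1),
      ‖y j * ∏ i ∈ (range (d + 1)).erase j, (z - x i) / ((x j : ℂ) - x i)‖ ≤
        θ * ((2 * B / s) ^ d / d !) := by
    intro j hj
    have hjd : j ≤ d := by have := Finset.mem_range.1 hj; omega
    rw [norm_mul, norm_prod]
    refine mul_le_mul (hy j hjd) ?_ (Finset.prod_nonneg fun _ _ => norm_nonneg _) hθ
    have hcard : ((range (d + 1)).erase j).card = d := by
      rw [Finset.card_erase_of_mem hj, Finset.card_range]; rfl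
    calc ∏ i ∈ (range (d + 1)).erase j, ‖(z - x i) / ((x j : ℂ) - x i)‖
        ≤ ∏ i ∈ (range (d + 1)).erase j, (B / s) / |(j : ℝ) - i| := by
          refine Finset.prod_le_prod (fun _ _ => norm_nonneg _) fun i hi => ?_
          rw [Finset.mem_erase, Finset.mem_range] at hi
          have hid : i ≤ d := by omega
          have hpos : 0 < |(j : ℝ) - i| := by
            rw [abs_pos, sub_ne_zero]; exact_mod_cast (Ne.symm hi.1)
          have h1 := spacing_abs x s hs0.le d hx i j hid hjd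
          rw [norm_div, ← Complex.ofReal_sub, Complex.norm_real, Real.norm_eq_abs, div_div,
            mul_comm s]
          exact div_le_div₀ hB (hz i hid) (by positivity) h1
      _ = (B / s) ^ d / ((j ! : ℝ) * ((d - j)! : ℝ)) := by
          rw [Finset.prod_div_distrib, Finset.prod_const, hcard, prod_abs_sub j d hjd]
      _ ≤ (2 * B / s) ^ d / d ! := by
          have h1 : (d.choose j : ℝ) * j ! * (d - j)! = d ! := by
            exact_mod_cast Nat.choose_mul_factorial_mul_factorial hjd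
          have h2 : (d.choose j : ℝ) ≤ 2 ^ d := by exact_mod_cast Nat.choose_le_two_pow d j
          have h3 : (0 : ℝ) < (j ! : ℝ) * ((d - j)! : ℝ) := by positivity
          rw [div_le_div_iff₀ h3 (by positivity), ← h1, mul_div_assoc, mul_pow]
          have h4 : (0 : ℝ) ≤ (B / s) ^ d := by positivity
          calc (B / s) ^ d * (d.choose j * j ! * (d - j)!)
              = (d.choose j : ℝ) * ((B / s) ^ d * ((j ! : ℝ) * (d - j)!)) := by ring
            _ ≤ 2 ^ d * ((B / s) ^ d * ((j ! : ℝ) * (d - j)!)) :=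
              mul_le_mul_of_nonneg_right h2 (by positivity)
            _ = _ := by ring
  have h1 : ‖lag x y d z‖ ≤ (d + 1 : ℝ) * (θ * ((2 * B / s) ^ d / d !)) := by
    unfold lag
    refine (norm_sum_le _ _).trans ((Finset.sum_le_sum hterm).trans ?_)
    simp
  refine h1.trans ?_
  have h2 : (2 * B / s) = (4 * B / η) * (d + 1) := by rw [hs]; field_simp; ring
  have h3 : ((d : ℝ) + 1) ^ (d + 1) / ((d + 1)! : ℕ) ≤ Real.exp (d + 1) := by
    have := Real.pow_div_factorial_le_exp (x := (d : ℝ) + 1) (by positivity) (d + 1)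
    simpa using this
  have h4 : ((d : ℝ) + 1) ^ d / d ! ≤ Real.exp 1 * Real.exp 1 ^ d := by
    rw [Nat.factorial_succ] at h3
    push_cast at h3
    have : ((d : ℝ) + 1) ^ (d + 1) / ((d + 1) * d !) = ((d : ℝ) + 1) ^ d / d ! := by
      rw [pow_succ]; field_simp
    rw [this] at h3
    rw [← Real.exp_nat_mul, ← Real.exp_add]
    simpa [add_comm] using h3
  have h5 : (d + 1 : ℝ) ≤ 2 * 2 ^ d := by
    have : d + 1 ≤ 2 ^ (d + 1) := (Nat.lt_two_pow_self).le
    have h' : ((d + 1 : ℕ) : ℝ) ≤ ((2 ^ (d + 1) : ℕ) : ℝ) := by exact_mod_cast this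
    push_cast at h'
    rw [pow_succ] at h'
    linarith
  rw [h2, mul_pow]
  have h6 : (0 : ℝ) ≤ (4 * B / η) ^ d := by positivity
  calc (d + 1 : ℝ) * (θ * ((4 * B / η) ^ d * (d + 1) ^ d / d !))
      = (d + 1 : ℝ) * (θ * (4 * B / η) ^ d * (((d : ℝ) + 1) ^ d / d !)) := by ring
    _ ≤ (2 * 2 ^ d) * (θ * (4 * B / η) ^ d * (Real.exp 1 * Real.exp 1 ^ d)) := by
      gcongr
    _ = θ * Real.exp 1 * (2 ^ d * Real.exp 1 ^ d * (4 * B / η) ^ d) * 2 := by ring
    _ = _ := by
      rw [← mul_pow, ← mul_pow]; congr 3; ring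

/-- One interpolation step. -/
lemma interp_step (ρ : ℝ) (hρ : 0 < ρ) (F : ℂ → ℂ)
    (hF : DifferentiableOn ℂ F {z | -1 / 2 < z.re}) (M θ η : ℝ) (hη : 0 < η) (hθ : 0 ≤ θ)
    (hM : ∀ z ∈ closedBall (ρ : ℂ) (ρ + 1 / 4), ‖F z‖ ≤ M) (d : ℕ) (x : ℕ → ℝ)
    (hxI : ∀ i ≤ d, x i ∈ Icc 0 ρ) (hx : ∀ i < d, x i + η / (2 * (d + 1)) ≤ x (i + 1))
    (hFx : ∀ i ≤ d, ‖F (x i)‖ ≤ θ) :
    ‖F 0‖ ≤ M * (ρ / (ρ + 1 / 4)) ^ (d + 1) +
      2 * (θ * Real.exp 1 * (8 * Real.exp 1 * (2 * ρ + 1 / 4) / η) ^ d * 2) := by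
  classical
  set W := θ * Real.exp 1 * (8 * Real.exp 1 * (2 * ρ + 1 / 4) / η) ^ d * 2 with hW
  have hW0 : 0 ≤ W := by positivity
  have hs0 : 0 < η / (2 * (d + 1)) := by positivity
  have hinj : ∀ i ≤ d, ∀ j ≤ d, i ≠ j → x i ≠ x j := by
    intro i hi j hj hij h
    have h1 := spacing_abs x _ hs0.le d hx i j hi hj
    rw [h, sub_self, abs_zero] at h1
    have hpos : 0 < |(j : ℝ) - i| := by
      rw [abs_pos, sub_ne_zero]; exact_mod_cast (Ne.symm hij)
    have := mul_pos hpos hs0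
    linarith
  have hL : ∀ z ∈ closedBall (ρ : ℂ) (ρ + 1 / 4), ‖lag x (fun j => F (x j)) d z‖ ≤ W := by
    intro z hz
    refine lag_bound x _ d η _ θ hη (by positivity) hθ hx hFx z fun i hi => ?_
    rw [mem_closedBall, dist_eq_norm] at hz
    have h1 : ‖(ρ : ℂ) - x i‖ ≤ ρ := by
      rw [← Complex.ofReal_sub, Complex.norm_real, Real.norm_eq_abs, abs_le]
      have := hxI i hi
      constructor <;> linarith [this.1, this.2]
    calc ‖z - x i‖ = ‖(z - ρ) + ((ρ : ℂ) - x i)‖ := by ring_nf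
      _ ≤ ‖z - ρ‖ + ‖(ρ : ℂ) - x i‖ := norm_add_le _ _
      _ ≤ _ := by linarith
  have hsub : closedBall (ρ : ℂ) (ρ + 1 / 4) ⊆ {z : ℂ | -1 / 2 < z.re} := by
    intro z hz
    rw [mem_closedBall, dist_eq_norm] at hz
    have := (abs_le.1 ((Complex.abs_re_le_norm (z - ρ)).trans hz)).1
    simp only [Complex.sub_re, Complex.ofReal_re] at this
    show -1 / 2 < z.re
    linarith
  have hopen : IsOpen {z : ℂ | -1 / 2 < z.re} := isOpen_lt continuous_const Complex.continuous_re
  have h0 : (0 : ℂ) ∈ closedBall (ρ : ℂ) (ρ + 1 / 4) := by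
    rw [mem_closedBall, dist_eq_norm]; simp [abs_of_pos hρ]
  have hM0 : 0 ≤ M := (norm_nonneg _).trans (hM 0 h0)
  set S : Finset ℂ := (range (d + 1)).image (fun i => (x i : ℂ)) with hS
  have hinj' : Set.InjOn (fun i => (x i : ℂ)) (range (d + 1) : Finset ℕ) := by
    intro i hi j hj h
    by_contra hij
    simp only [Finset.coe_range, Set.mem_Iio] at hi hj
    exact hinj i (by omega) j (by omega) hij (Complex.ofReal_injective h)
  set Q : ℝ := ∏ i ∈ range (d + 1), (x i + 1 / 4) with hQ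
  have hQpos : 0 < Q := Finset.prod_pos fun i hi => by
    have := (hxI i (by have := Finset.mem_range.1 hi; omega)).1; linarith
  have key := norm_le_of_zeros (ρ : ℂ) (ρ + 1 / 4) (by positivity) _ hopen hsub 0 h0 S
    (by
      intro z hz
      obtain ⟨i, hi, rfl⟩ := Finset.mem_image.1 hz
      have := hxI i (by have := Finset.mem_range.1 hi; omega)
      rw [mem_ball, dist_eq_norm, ← Complex.ofReal_sub, Complex.norm_real, Real.norm_eq_abs, abs_lt]
      constructor <;> linarith [this.1, this.2])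
    (fun z => F z - lag x (fun j => F (x j)) d z) ((M + W) / Q)
    (hF.sub (lag_diff _ _ _).differentiableOn)
    (by
      intro z hz
      obtain ⟨i, hi, rfl⟩ := Finset.mem_image.1 hz
      rw [lag_node x _ d hinj i (by have := Finset.mem_range.1 hi; omega), sub_self])
    (by
      intro ζ hζ
      have hζ' := sphere_subset_closedBall hζ
      have h1 : ‖F ζ - lag x (fun j => F (x j)) d ζ‖ ≤ M + W :=
        (norm_sub_le _ _).trans (add_le_add (hM ζ hζ') (hL ζ hζ'))
      refine h1.trans ?_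
      rw [hS, Finset.prod_image hinj', div_mul_eq_mul_div, le_div_iff₀ hQpos]
      refine mul_le_mul_of_nonneg_left ?_ (by positivity)
      refine Finset.prod_le_prod (fun i hi => ?_) fun i hi => ?_
      · have := (hxI i (by have := Finset.mem_range.1 hi; omega)).1; linarith
      · have := hxI i (by have := Finset.mem_range.1 hi; omega)
        rw [mem_sphere, dist_eq_norm] at hζ
        have h2 : ‖(x i : ℂ) - ρ‖ = ρ - x i := by
          rw [← Complex.ofReal_sub, Complex.norm_real, Real.norm_eq_abs,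
            abs_of_nonpos (by linarith [this.2])]; ring
        have h3 : ‖ζ - ρ‖ ≤ ‖ζ - x i‖ + ‖(x i : ℂ) - ρ‖ := by
          calc ‖ζ - ρ‖ = ‖(ζ - x i) + ((x i : ℂ) - ρ)‖ := by ring_nf
            _ ≤ _ := norm_add_le _ _
        linarith)
  rw [hS, Finset.prod_image hinj', div_mul_eq_mul_div, mul_div_assoc, hQ,
    ← Finset.prod_div_distrib] at key
  have hq : ∏ i ∈ range (d + 1), ‖(0 : ℂ) - x i‖ / (x i + 1 / 4) ≤ (ρ / (ρ + 1 / 4)) ^ (d + 1) := by
    rw [← Finset.card_range (d + 1), ← Finset.prod_const, Finset.card_range]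
    refine Finset.prod_le_prod (fun i hi => ?_) fun i hi => ?_
    · have := (hxI i (by have := Finset.mem_range.1 hi; omega)).1; positivity
    · have := hxI i (by have := Finset.mem_range.1 hi; omega)
      rw [zero_sub, norm_neg, Complex.norm_real, Real.norm_eq_abs, abs_of_nonneg this.1,
        div_le_div_iff₀ (by linarith [this.1]) (by positivity)]
      nlinarith [this.1, this.2]
  have hq1 : (ρ / (ρ + 1 / 4)) ^ (d + 1) ≤ 1 :=
    pow_le_one₀ (by positivity) ((div_le_one (by positivity)).2 (by linarith))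
  have h2 : ‖F 0 - lag x (fun j => F (x j)) d 0‖ ≤ (M + W) * (ρ / (ρ + 1 / 4)) ^ (d + 1) :=
    key.trans (mul_le_mul_of_nonneg_left hq (by positivity))
  have h3 : ‖F 0‖ ≤ ‖F 0 - lag x (fun j => F (x j)) d 0‖ + ‖lag x (fun j => F (x j)) d 0‖ := by
    calc ‖F 0‖ = ‖(F 0 - lag x (fun j => F (x j)) d 0) + lag x (fun j => F (x j)) d 0‖ := by
          ring_nf
      _ ≤ _ := norm_add_le _ _
  have h4 := hL 0 h0
  have h5 : W * (ρ / (ρ + 1 / 4)) ^ (d + 1) ≤ W := mul_le_of_le_one_right hW0 hq1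
  nlinarith

theorem null_superexp (F : ℕ → ℂ → ℂ)
    (hF : ∀ p, DifferentiableOn ℂ (F p) {z | -1 / 2 < z.re})
    (hup : ∀ ρ : ℝ, 0 < ρ → ∃ C : ℝ, 0 < C ∧ ∀ p, 1 ≤ p →
      ∀ z ∈ closedBall (ρ : ℂ) (ρ + 1 / 4), ‖F p z‖ ≤ C ^ p)
    (c : ℝ) (hc : 0 < c) (hlow : ∀ p, 1 ≤ p → c ^ p ≤ ‖F p 0‖) :
    volume {x : ℝ | 0 < x ∧ ∀ θ : ℝ, 0 < θ → ∀ᶠ p in atTop, ‖F p x‖ ≤ θ ^ p} = 0 := by
  set Bad := {x : ℝ | 0 < x ∧ ∀ θ : ℝ, 0 < θ → ∀ᶠ p in atTop, ‖F p x‖ ≤ θ ^ p} with hBad
  have hcov : Bad = ⋃ n : ℕ, Bad ∩ Icc 0 ((n : ℝ) + 1) := by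
    ext x
    simp only [Set.mem_iUnion, Set.mem_inter_iff, Set.mem_Icc]
    constructor
    · intro hx
      obtain ⟨n, hn⟩ := exists_nat_ge x
      exact ⟨n, hx, hx.1.le, by linarith⟩
    · rintro ⟨n, hx, _⟩; exact hx
  rw [hcov, measure_iUnion_null_iff]
  intro n
  set ρ : ℝ := n + 1 with hρdef
  have hρ : 0 < ρ := by positivity
  by_contra hne
  obtain ⟨η', hη'0, hη'⟩ := exists_between (pos_iff_ne_zero.2 hne)
  have hfin : η' ≠ ⊤ := ne_top_of_lt hη'
  set η := η'.toReal with hηdef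
  have hη : 0 < η := ENNReal.toReal_pos hη'0.ne' hfin
  obtain ⟨C, hC, hCF⟩ := hup ρ hρ
  set q : ℝ := ρ / (ρ + 1 / 4) with hq
  have hq0 : 0 < q := by positivity
  have hq1 : q < 1 := (div_lt_one (by positivity)).2 (by linarith)
  obtain ⟨M0, hM0⟩ := exists_pow_lt_of_lt_one (show 0 < c / (4 * C) by positivity) hq1
  set M := M0 + 1 with hM
  have hqM : C * q ^ M ≤ c / 4 := by
    have h1 : q ^ M ≤ q ^ M0 := pow_le_pow_of_le_one hq0.le hq1.le (by omega)
    have h2 : q ^ M ≤ c / (4 * C) := h1.trans hM0.le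
    calc C * q ^ M ≤ C * (c / (4 * C)) := by gcongr
      _ = c / 4 := by field_simp
  set W : ℝ := max 1 (8 * Real.exp 1 * (2 * ρ + 1 / 4) / η) with hW
  have hW1 : 1 ≤ W := le_max_left _ _
  set θ : ℝ := c / (16 * Real.exp 1 * W ^ M) with hθ
  have hθ0 : 0 < θ := by positivity
  set E : ℕ → Set ℝ := fun P => {x | x ∈ Icc 0 ρ ∧ ∀ p ≥ P, ‖F p x‖ ≤ θ ^ p} with hE
  have hmono : Monotone E := by
    intro P P' h x hx
    exact ⟨hx.1, fun p hp => hx.2 p (h.trans hp)⟩
  have hsub : Bad ∩ Icc 0 ρ ⊆ ⋃ P, E P := by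
    rintro x ⟨hx, hxI⟩
    obtain ⟨P, hP⟩ := eventually_atTop.1 (hx.2 θ hθ0)
    exact Set.mem_iUnion.2 ⟨P, hxI, hP⟩
  have h1 : η' < ⨆ P, volume (E P) := by
    rw [← hmono.measure_iUnion]
    exact hη'.trans_le (measure_mono hsub)
  obtain ⟨P, hP⟩ := lt_iSup_iff.1 h1
  set p := P + 1 with hp
  have hp1 : 1 ≤ p := by omega
  obtain ⟨d, hd⟩ : ∃ d, d + 1 = M * p := ⟨M * p - 1, by
    have : 1 ≤ M * p := Nat.mul_pos (by omega) (by omega)
    omega⟩
  have hs0 : 0 < η / (2 * (d + 1)) := by positivity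
  obtain ⟨x, hx1, hx2⟩ := exists_points ρ _ hs0 d (E P) (fun x hx => hx.1) (by
    refine lt_of_le_of_lt ?_ hP
    rw [← ENNReal.ofReal_toReal hfin]
    refine ENNReal.ofReal_le_ofReal ?_
    rw [← hηdef, mul_div_assoc', div_le_iff₀ (by positivity)]
    nlinarith [(Nat.cast_nonneg d : (0:ℝ) ≤ d)])
  have key := interp_step ρ hρ (F p) (hF p) (C ^ p) (θ ^ p) η hη (by positivity)
    (hCF p hp1) d x (fun i hi => (hx1 i hi).1) hx2 (fun i hi => (hx1 i hi).2 p (by omega))
  have hA : C ^ p * q ^ (d + 1) ≤ c ^ p / 4 := by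
    rw [hd, pow_mul, ← mul_pow]
    calc (C * q ^ M) ^ p ≤ (c / 4) ^ p := by gcongr
      _ = c ^ p / 4 ^ p := div_pow _ _ _
      _ ≤ c ^ p / 4 := by
        gcongr
        exact le_self_pow₀ (by norm_num) (by omega)
  have hB : θ ^ p * Real.exp 1 * (8 * Real.exp 1 * (2 * ρ + 1 / 4) / η) ^ d * 2 ≤ c ^ p / 8 := by
    have h2 : (8 * Real.exp 1 * (2 * ρ + 1 / 4) / η) ^ d ≤ (W ^ M) ^ p := by
      calc _ ≤ W ^ d := by gcongr; exact le_max_right _ _
        _ ≤ W ^ (d + 1) := pow_le_pow_right₀ hW1 (by omega)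
        _ = _ := by rw [hd, pow_mul]
    have h3 : θ * W ^ M = c / (16 * Real.exp 1) := by rw [hθ]; field_simp
    have he : 1 ≤ 16 * Real.exp 1 := by have := Real.add_one_le_exp (1 : ℝ); linarith
    calc θ ^ p * Real.exp 1 * (8 * Real.exp 1 * (2 * ρ + 1 / 4) / η) ^ d * 2
        ≤ θ ^ p * Real.exp 1 * (W ^ M) ^ p * 2 := by gcongr
      _ = (θ * W ^ M) ^ p * (2 * Real.exp 1) := by rw [mul_pow]; ring
      _ = c ^ p / (16 * Real.exp 1) ^ p * (2 * Real.exp 1) := by rw [h3, div_pow]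
      _ ≤ c ^ p / (16 * Real.exp 1) * (2 * Real.exp 1) := by
        gcongr
        exact le_self_pow₀ he (by omega)
      _ = c ^ p / 8 := by field_simp; ring
  have h5 := hlow p hp1
  have h6 : 0 < c ^ p := by positivity
  rw [← hq] at key
  linarith

end H710NS
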