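import Pool.Agent.H710Z.NS.Rec

/-! The hydrostatic limit `δ = 0`: the first moments solve a closed system with nonnegative
coefficients (Proudman–Johnson equation on the symmetry axis), hence an exponential lower bound. -/

open Set MeasureTheory Finset Filter

namespace H710NS

variable {T : ℝ}

lemma nl_apply (δ : ℂ) (X : ℕ → ℤ → CT T) (a b : ℕ) (κ : ℤ) (t : Icc (0 : ℝ) T) :
    nl δ X a b κ t = ∑ l ∈ II a, ∑ m ∈ II b,
      if l + m = κ then coef δ a b l m * (X a l t * X b m t) else 0 := by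
  unfold nl
  simp only [ContinuousMap.sum_apply]
  refine Finset.sum_congr rfl fun l _ => Finset.sum_congr rfl fun m _ => ?_
  split_ifs <;> simp

lemma wsum_nl_apply (δ : ℂ) (X : ℕ → ℤ → CT T) (a b : ℕ) (w : ℤ → ℂ) (t : Icc (0 : ℝ) T) :
    ∑ κ ∈ II (a + b), w κ * nl δ X a b κ t =
      ∑ l ∈ II a, ∑ m ∈ II b, w (l + m) * coef δ a b l m * (X a l t * X b m t) := by
  simp only [nl_apply, Finset.mul_sum]
  rw [Finset.sum_comm]
  refine Finset.sum_congr rfl fun l hl => ?_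
  rw [Finset.sum_comm]
  refine Finset.sum_congr rfl fun m hm => ?_
  simp only [mul_ite, mul_zero]
  rw [Finset.sum_ite_eq, if_pos, mul_assoc]
  rw [mem_II] at hl hm ⊢
  have := abs_add_le l m
  push_cast
  omega

lemma moment (hT : 0 ≤ T) (ν : ℝ) (p : ℕ) (w : ℤ → ℂ) (R : CT T)
    (hR : ∀ t, R t = ((p : ℂ) ^ 2)⁻¹ * ∑ a ∈ Finset.Ico 1 p, ∑ l ∈ II a, ∑ m ∈ II (p - a),
      w (l + m) * coef 0 a (p - a) l m * (G hT ν 0 a l t * G hT ν 0 (p - a) m t)) :
    ∑ κ ∈ II p, w κ • G hT ν 0 p κ =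
      (∑ κ ∈ II p, w κ * g0 p κ) • ex T (-((ν * p ^ 2 : ℝ) : ℂ)) +
        duh hT ((ν * p ^ 2 : ℝ) : ℂ) R := by
  have hl : ∀ κ, lam 0 p κ = (p : ℂ) ^ 2 := fun κ => by simp [lam]
  have hm : ((ν * p ^ 2 : ℝ) : ℂ) = ν * (p : ℂ) ^ 2 := by push_cast; rfl
  have h1 : R = ∑ κ ∈ II p, w κ • (((p : ℂ) ^ 2)⁻¹ •
      ∑ a ∈ Finset.Ico 1 p, nl 0 (G hT ν 0) a (p - a) κ) := by
    ext t
    rw [hR]
    simp only [ContinuousMap.sum_apply, ContinuousMap.smul_apply, smul_eq_mul, Finset.mul_sum]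
    rw [Finset.sum_comm (s := II p)]
    refine Finset.sum_congr rfl fun a ha => ?_
    rw [Finset.mem_Ico] at ha
    have := wsum_nl_apply 0 (G hT ν 0) a (p - a) w t
    rw [Nat.add_sub_cancel' ha.2.le] at this
    simp only [← Finset.mul_sum]
    rw [← this, Finset.mul_sum]
    refine Finset.sum_congr rfl fun κ _ => by ring
  rw [h1, ← duh_sum, hm]
  ext t
  simp only [ContinuousMap.sum_apply, ContinuousMap.smul_apply, ContinuousMap.add_apply,
    smul_eq_mul, Finset.sum_mul, ← Finset.sum_add_distrib]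
  refine Finset.sum_congr rfl fun κ _ => ?_
  rw [G_eq, hl]
  simp only [ContinuousMap.smul_apply, ContinuousMap.add_apply, smul_eq_mul]
  ring

lemma sum_g0 (p : ℕ) (w : ℤ → ℂ) :
    ∑ κ ∈ II p, w κ * g0 p κ = if p = 1 ∨ p = 2 then w (-1) - w 1 else 0 := by
  by_cases h : p = 1 ∨ p = 2
  · rw [if_pos h]
    have h1 : ∀ κ, w κ * g0 p κ = (if κ = -1 then w κ else 0) - (if κ = 1 then w κ else 0) := by
      intro κ
      unfold g0
      rw [if_pos h]
      split_ifs with h1 h2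
      · omega
      · simp
      · simp
      · simp
    simp only [h1]
    rw [Finset.sum_sub_distrib, Finset.sum_ite_eq', Finset.sum_ite_eq', if_pos, if_pos]
    · rw [mem_II]; rcases h with rfl | rfl <;> simp
    · rw [mem_II]; rcases h with rfl | rfl <;> simp
  · simp [g0, h]

lemma alg0 (a b : ℕ) (s t : Finset ℤ) (X Y : ℤ → ℂ) :
    ∑ l ∈ s, ∑ m ∈ t, 1 * coef 0 a b l m * (X l * Y m) =
      ((a : ℂ) + b) * b * (a * ((∑ l ∈ s, X l) * ∑ m ∈ t, (m : ℂ) * Y m) -
        b * ((∑ l ∈ s, (l : ℂ) * X l) * ∑ m ∈ t, Y m)) := by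
  simp only [Finset.sum_mul_sum]
  simp only [Finset.mul_sum, ← Finset.sum_sub_distrib]
  refine Finset.sum_congr rfl fun l _ => Finset.sum_congr rfl fun m _ => ?_
  unfold coef; ring

lemma alg1 (a b : ℕ) (s t : Finset ℤ) (X Y : ℤ → ℂ) :
    ∑ l ∈ s, ∑ m ∈ t, ((l + m : ℤ) : ℂ) * coef 0 a b l m * (X l * Y m) =
      ((a : ℂ) + b) * b * ((a - b) * ((∑ l ∈ s, (l : ℂ) * X l) * ∑ m ∈ t, (m : ℂ) * Y m) +
        a * ((∑ l ∈ s, X l) * ∑ m ∈ t, (m : ℂ) ^ 2 * Y m) -
        b * ((∑ l ∈ s, (l : ℂ) ^ 2 * X l) * ∑ m ∈ t, Y m)) := by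
  simp only [Finset.sum_mul_sum]
  simp only [Finset.mul_sum, ← Finset.sum_sub_distrib, ← Finset.sum_add_distrib, mul_sub, mul_add]
  refine Finset.sum_congr rfl fun l _ => Finset.sum_congr rfl fun m _ => ?_
  unfold coef; push_cast; ring

lemma mom0 (hT : 0 ≤ T) (ν : ℝ) (p : ℕ) : ∀ t, ∑ κ ∈ II p, G hT ν 0 p κ t = 0 := by
  induction p using Nat.strong_induction_on with
  | _ p ih =>
  intro t
  have h := moment hT ν p (fun _ => 1) 0 (fun t => by
    rw [Finset.sum_eq_zero, mul_zero]; · rfl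
    intro a ha
    rw [Finset.mem_Ico] at ha
    rw [alg0 a (p - a) (II a) (II (p - a)) (fun l => G hT ν 0 a l t)
      (fun m => G hT ν 0 (p - a) m t), ih a ha.2, ih (p - a) (by omega)]
    simp)
  rw [sum_g0, duh_zero] at h
  have h2 := congrArg (fun f : CT T => f t) h
  simpa [ContinuousMap.sum_apply] using h2

/-- minus the first moment at `δ = 0` -/
noncomputable def HH (hT : 0 ≤ T) (ν : ℝ) (p : ℕ) : CT T := - Fm hT ν 0 p

noncomputable def RH (hT : 0 ≤ T) (ν : ℝ) (p : ℕ) : CT T :=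
  ∑ a ∈ Finset.Ico 1 p, ((((p : ℝ) - 2 * a) ^ 2 / (2 * p) : ℝ) : ℂ) •
    (HH hT ν a * HH hT ν (p - a))

lemma HH_apply (hT : 0 ≤ T) (ν : ℝ) (p : ℕ) (t : Icc (0 : ℝ) T) :
    HH hT ν p t = - ∑ κ ∈ II p, (κ : ℂ) * G hT ν 0 p κ t := by
  simp [HH, Fm, ContinuousMap.sum_apply]

lemma symm_sum (p : ℕ) (f : ℕ → ℕ → ℂ) :
    ∑ a ∈ Finset.Ico 1 p, f a (p - a) = ∑ a ∈ Finset.Ico 1 p, f (p - a) a := by
  refine Finset.sum_nbij' (fun a => p - a) (fun a => p - a) ?_ ?_ ?_ ?_ ?_
  · intro a ha; rw [Finset.mem_Ico] at ha ⊢; omega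
  · intro a ha; rw [Finset.mem_Ico] at ha ⊢; omega
  · intro a ha; rw [Finset.mem_Ico] at ha; omega
  · intro a ha; rw [Finset.mem_Ico] at ha; omega
  · intro a ha; rw [Finset.mem_Ico] at ha
    rw [Nat.sub_sub_self ha.2.le]

lemma HH_eq (hT : 0 ≤ T) (ν : ℝ) (p : ℕ) (hp : 1 ≤ p) :
    HH hT ν p = (if p = 1 ∨ p = 2 then (2 : ℂ) else 0) • ex T (-((ν * p ^ 2 : ℝ) : ℂ)) +
      duh hT ((ν * p ^ 2 : ℝ) : ℂ) (RH hT ν p) := by
  have hp0 : (p : ℂ) ≠ 0 := by exact_mod_cast (by omega : p ≠ 0)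
  have h := moment hT ν p (fun κ => (κ : ℂ)) (- RH hT ν p) (fun t => by
    set f : ℕ → ℕ → ℂ := fun a b => (b : ℂ) * ((a : ℂ) - b) * (HH hT ν a t * HH hT ν b t) with hf
    have e1 : ∑ a ∈ Finset.Ico 1 p, ∑ l ∈ II a, ∑ m ∈ II (p - a),
        ((l + m : ℤ) : ℂ) * coef 0 a (p - a) l m * (G hT ν 0 a l t * G hT ν 0 (p - a) m t) =
        p * ∑ a ∈ Finset.Ico 1 p, f a (p - a) := by
      rw [Finset.mul_sum]
      refine Finset.sum_congr rfl fun a ha => ?_
      rw [Finset.mem_Ico] at ha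
      rw [alg1 a (p - a) (II a) (II (p - a)) (fun l => G hT ν 0 a l t)
        (fun m => G hT ν 0 (p - a) m t), mom0, mom0]
      simp only [hf, HH_apply]
      rw [Nat.cast_sub ha.2.le]
      ring
    have e2 : 2 * ∑ a ∈ Finset.Ico 1 p, f a (p - a) =
        - ∑ a ∈ Finset.Ico 1 p, ((p : ℂ) - 2 * a) ^ 2 * (HH hT ν a t * HH hT ν (p - a) t) := by
      rw [two_mul]
      nth_rewrite 2 [symm_sum p f]
      rw [← Finset.sum_add_distrib, ← Finset.sum_neg_distrib]
      refine Finset.sum_congr rfl fun a ha => ?_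
      rw [Finset.mem_Ico] at ha
      simp only [hf]
      rw [Nat.cast_sub ha.2.le]
      ring
    have e3 : RH hT ν p t = (2 * (p : ℂ))⁻¹ *
        ∑ a ∈ Finset.Ico 1 p, ((p : ℂ) - 2 * a) ^ 2 * (HH hT ν a t * HH hT ν (p - a) t) := by
      unfold RH
      simp only [ContinuousMap.sum_apply, ContinuousMap.smul_apply, ContinuousMap.mul_apply,
        smul_eq_mul, Finset.mul_sum]
      refine Finset.sum_congr rfl fun a _ => ?_
      push_cast
      field_simp
    rw [e1, ContinuousMap.neg_apply, e3]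
    have e4 : ∑ a ∈ Finset.Ico 1 p, ((p : ℂ) - 2 * a) ^ 2 * (HH hT ν a t * HH hT ν (p - a) t) =
        - (2 * ∑ a ∈ Finset.Ico 1 p, f a (p - a)) := by rw [e2, neg_neg]
    rw [e4]
    field_simp)
  rw [sum_g0, duh_neg] at h
  ext t
  have h2 := congrArg (fun f : CT T => f t) h
  simp only [HH, Fm, ContinuousMap.neg_apply]
  rw [h2]
  simp only [ContinuousMap.add_apply, ContinuousMap.smul_apply, ContinuousMap.neg_apply,
    smul_eq_mul]
  split_ifs
  · push_cast; ring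
  · ring

lemma sum_sq (x : ℝ) (n : ℕ) : ∑ a ∈ Finset.range n, (x - 2 * a) ^ 2 =
    n * x ^ 2 - 2 * x * n * (n - 1) + 2 * (n - 1) * n * (2 * n - 1) / 3 := by
  induction n with
  | zero => simp
  | succ n ih => rw [Finset.sum_range_succ, ih]; push_cast; ring

lemma sum_sq_ge (p : ℕ) (hp : 3 ≤ p) :
    2 * (p : ℝ) ^ 3 / 27 ≤ ∑ a ∈ Finset.Ico 1 p, ((p : ℝ) - 2 * a) ^ 2 := by
  have h := sum_sq p p
  rw [Finset.range_eq_Ico, Finset.sum_eq_sum_Ico_succ_bot (by omega)] at h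
  have hp' : (3 : ℝ) ≤ p := by exact_mod_cast hp
  simp only [Nat.cast_zero, mul_zero, sub_zero, zero_add] at h
  have : ∑ a ∈ Finset.Ico 1 p, ((p : ℝ) - 2 * a) ^ 2 = (p : ℝ) * (p - 1) * (p - 2) / 3 := by
    linarith
  rw [this]
  have h1 : 2 * (p : ℝ) / 3 ≤ p - 1 := by linarith
  have h2 : (p : ℝ) / 3 ≤ p - 2 := by linarith
  have h3 : 2 * (p : ℝ) / 3 * (p / 3) ≤ (p - 1) * (p - 2) :=
    mul_le_mul h1 h2 (by positivity) (by linarith)
  nlinarith

lemma HH_lower (hT : 0 < T) (ν : ℝ) (hν : 0 < ν) (K c : ℝ) (hK : K = 27 * Real.exp (ν * T) / T)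
    (hc0 : 0 < c) (hc1 : c ≤ 1) (hc : K * c ≤ Real.exp (-(4 * ν * T))) (p : ℕ) : 1 ≤ p →
    Pos (HH hT.le ν p) ∧ ∀ t : Icc (0 : ℝ) T, T * (1 - 1 / p) ≤ t →
      K * c ^ p ≤ (HH hT.le ν p t).re := by
  have hK0 : 0 < K := by rw [hK]; positivity
  induction p using Nat.strong_induction_on with
  | _ p ih =>
  intro hp
  have hp' : (0 : ℝ) < p := by exact_mod_cast hp
  have hRre : ∀ t, (RH hT.le ν p t).im = 0 ∧ (RH hT.le ν p t).re =
      ∑ a ∈ Finset.Ico 1 p, ((p : ℝ) - 2 * a) ^ 2 / (2 * p) *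
        ((HH hT.le ν a t).re * (HH hT.le ν (p - a) t).re) := by
    intro t
    unfold RH
    simp only [ContinuousMap.sum_apply, ContinuousMap.smul_apply, ContinuousMap.mul_apply,
      smul_eq_mul, Complex.im_sum, Complex.re_sum]
    constructor
    · refine Finset.sum_eq_zero fun a ha => ?_
      rw [Finset.mem_Ico] at ha
      rw [Complex.im_ofReal_mul, Complex.mul_im, ((ih a ha.2 ha.1).1 t).1,
        ((ih (p - a) (by omega) (by omega)).1 t).1]
      simp
    · refine Finset.sum_congr rfl fun a ha => ?_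
      rw [Finset.mem_Ico] at ha
      rw [Complex.re_ofReal_mul, Complex.mul_re, ((ih a ha.2 ha.1).1 t).1]
      simp
  have hRpos : Pos (RH hT.le ν p) := by
    intro t
    refine ⟨(hRre t).1, ?_⟩
    rw [(hRre t).2]
    refine Finset.sum_nonneg fun a ha => ?_
    rw [Finset.mem_Ico] at ha
    exact mul_nonneg (by positivity) (mul_nonneg ((ih a ha.2 ha.1).1 t).2
      ((ih (p - a) (by omega) (by omega)).1 t).2)
  have hD := duh_pos hT.le (ν * p ^ 2) _ hRpos
  have hval : ∀ t : Icc (0 : ℝ) T, HH hT.le ν p t =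
      (((if p = 1 ∨ p = 2 then (2 : ℝ) else 0) * Real.exp (-(ν * p ^ 2) * t) : ℝ) : ℂ) +
        duh hT.le ((ν * p ^ 2 : ℝ) : ℂ) (RH hT.le ν p) t := by
    intro t
    rw [HH_eq hT.le ν p hp]
    simp only [ContinuousMap.add_apply, ContinuousMap.smul_apply, ex_apply, smul_eq_mul]
    congr 1
    split_ifs <;> push_cast <;> rfl
  have hnn : ∀ t : Icc (0 : ℝ) T,
      0 ≤ (if p = 1 ∨ p = 2 then (2 : ℝ) else 0) * Real.exp (-(ν * p ^ 2) * t) := by
    intro t; split_ifs <;> positivity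
  refine ⟨fun t => ?_, fun t ht => ?_⟩
  · rw [hval, Complex.add_im, Complex.add_re, Complex.ofReal_im, Complex.ofReal_re, (hD t).1]
    exact ⟨by simp, add_nonneg (hnn t) (hD t).2⟩
  · rw [hval, Complex.add_re, Complex.ofReal_re]
    by_cases h12 : p = 1 ∨ p = 2
    · rw [if_pos h12]
      have h1 : c ^ p ≤ c := pow_le_of_le_one hc0.le hc1 (by omega)
      have h2 : K * c ^ p ≤ K * c := by gcongr
      have h3 : Real.exp (-(4 * ν * T)) ≤ Real.exp (-(ν * p ^ 2) * t) := by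
        rw [Real.exp_le_exp]
        have h4 : (p : ℝ) ^ 2 ≤ 4 := by rcases h12 with rfl | rfl <;> norm_num
        have h5 : ν * p ^ 2 * t ≤ ν * 4 * T := by
          have := t.2.1
          have := t.2.2
          gcongr
        linarith
      have := (hD t).2
      have := Real.exp_pos (-(ν * p ^ 2) * t)
      linarith
    · have hp3 : 3 ≤ p := by omega
      have hp3' : (3 : ℝ) ≤ p := by exact_mod_cast hp3
      have hlow := duh_lower hT.le (ν * p ^ 2) (by positivity) _ hRpos (T * (1 - 1 / (p - 1)))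
        (T / p ^ 2) (K ^ 2 * c ^ p * (p ^ 2 / 27))
        (by
          have : 1 / ((p : ℝ) - 1) ≤ 1 := by rw [div_le_one (by linarith)]; linarith
          have : 0 ≤ 1 - 1 / ((p : ℝ) - 1) := by linarith
          positivity) (by positivity) (by positivity)
        (by
          intro s hs
          rw [(hRre s).2]
          have key : ∀ a, 1 ≤ a → a < p → K * c ^ a ≤ (HH hT.le ν a s).re := by
            intro a ha1 ha2
            refine (ih a ha2 ha1).2 s (le_trans ?_ hs)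
            have h1 : (a : ℝ) ≤ p - 1 := by
              have : (a : ℝ) + 1 ≤ p := by exact_mod_cast ha2
              linarith
            have h2 : (0 : ℝ) < a := by exact_mod_cast ha1
            have h3 : 1 / ((p : ℝ) - 1) ≤ 1 / a := one_div_le_one_div_of_le h2 h1
            have := hT.le
            gcongr
          calc K ^ 2 * c ^ p * (p ^ 2 / 27)
              = (2 * (p : ℝ) ^ 3 / 27) / (2 * p) * (K ^ 2 * c ^ p) := by field_simp
            _ ≤ (∑ a ∈ Finset.Ico 1 p, ((p : ℝ) - 2 * a) ^ 2) / (2 * p) * (K ^ 2 * c ^ p) := by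
              gcongr; exact sum_sq_ge p hp3
            _ = ∑ a ∈ Finset.Ico 1 p, ((p : ℝ) - 2 * a) ^ 2 / (2 * p) * (K ^ 2 * c ^ p) := by
              rw [Finset.sum_div, Finset.sum_mul]
            _ ≤ _ := by
              refine Finset.sum_le_sum fun a ha => ?_
              rw [Finset.mem_Ico] at ha
              refine mul_le_mul_of_nonneg_left ?_ (by positivity)
              have e3 : K ^ 2 * c ^ p = K * c ^ a * (K * c ^ (p - a)) := by
                rw [show c ^ p = c ^ a * c ^ (p - a) by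
                  rw [← pow_add, Nat.add_sub_cancel' ha.2.le]]
                ring
              rw [e3]
              exact mul_le_mul (key a ha.1 ha.2) (key (p - a) (by omega) (by omega))
                (by positivity) ((ih a ha.2 ha.1).1 s).2)
        t (by
          refine le_trans ?_ ht
          have h1 : 1 / (p : ℝ) ^ 2 ≤ 1 / (p - 1) - 1 / p := by
            rw [div_sub_div _ _ (by linarith) (by linarith),
              div_le_div_iff₀ (by positivity) (by nlinarith)]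
            nlinarith
          have h2 : T / p ^ 2 = T * (1 / (p : ℝ) ^ 2) := by ring
          rw [h2]
          nlinarith)
      have e : K ^ 2 * c ^ p * (p ^ 2 / 27) * (T / p ^ 2) * Real.exp (-(ν * p ^ 2) * (T / p ^ 2)) =
          K * c ^ p := by
        have e1 : -(ν * p ^ 2) * (T / p ^ 2) = -(ν * T) := by field_simp
        rw [e1, Real.exp_neg, pow_two K]
        nth_rewrite 1 [hK]
        field_simp
      rw [e] at hlow
      linarith [hnn t]

/-- The analytic core: for almost every `δ > 0` the first moments at time `T` do not decay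
superexponentially. -/
theorem null_bad (hT : 0 < T) (ν : ℝ) (hν : 0 < ν) :
    volume {x : ℝ | 0 < x ∧ ∀ θ : ℝ, 0 < θ → ∀ᶠ p in atTop,
      ‖Fm hT.le ν x p ⟨T, hT.le, le_rfl⟩‖ ≤ θ ^ p} = 0 := by
  set K := 27 * Real.exp (ν * T) / T with hK
  have hK0 : 0 < K := by positivity
  set c := min 1 (Real.exp (-(4 * ν * T)) / K) with hc
  have hc0 : 0 < c := lt_min one_pos (by positivity)
  have hc1 : c ≤ 1 := min_le_left _ _
  have hc2 : K * c ≤ Real.exp (-(4 * ν * T)) := by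
    have : c ≤ Real.exp (-(4 * ν * T)) / K := min_le_right _ _
    rw [le_div_iff₀ hK0] at this; linarith
  refine null_superexp (fun p δ => Fm hT.le ν δ p ⟨T, hT.le, le_rfl⟩) (fun p => ?_)
    (fun ρ hρ => ?_) (min 1 K * c) (by positivity) fun p hp => ?_
  · exact (ContinuousMap.evalCLM ℂ (⟨T, hT.le, le_rfl⟩ : Icc (0 : ℝ) T)).differentiable.comp_differentiableOn
      (Fm_diff hT.le ν p)
  · obtain ⟨C, hC, h⟩ := Fm_upper hT.le ν hν ρ hρ
    exact ⟨C, hC, fun p hp z hz => (ContinuousMap.norm_coe_le_norm _ _).trans (h p hp z hz)⟩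
  · have h := (HH_lower hT ν hν K c hK hc0 hc1 hc2 p hp).2 ⟨T, hT.le, le_rfl⟩ (by
      have : (0 : ℝ) ≤ 1 / p := by positivity
      simp only
      nlinarith)
    have h2 : ‖HH hT.le ν p ⟨T, hT.le, le_rfl⟩‖ = ‖Fm hT.le ν 0 p ⟨T, hT.le, le_rfl⟩‖ := by
      simp [HH]
    rw [← h2]
    refine le_trans ?_ (h.trans (Complex.re_le_norm _))
    rw [mul_pow]
    have h3 : (min 1 K) ^ p ≤ K :=
      (pow_le_of_le_one (by positivity) (min_le_left _ _) (by omega)).trans (min_le_right _ _)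
    gcongr

end H710NS
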