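import Pool.Agent.H710Z.NS.Ode
import Pool.Agent.H710Z.NS.Low

/-! Identification of the Fourier coefficients with the recursion, and the blow-up theorem. -/

open Set MeasureTheory Filter
open scoped ContDiff Topology Real

namespace H710NS

variable {d : Type*} [Fintype d] [DecidableEq d]
variable {ℓ : d → ℝ} {T ν : ℝ} {U : d → (d → ℝ) × ℝ → ℂ} {P : (d → ℝ) × ℝ → ℂ} {a b : d}

def md (a b : d) (κ p : ℤ) : d → ℤ := Pi.single a κ + Pi.single b p

def Plane (a b : d) (k : d → ℤ) : Prop := ∀ j, j ≠ a → j ≠ b → k j = 0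

omit [Fintype d] in
lemma md_a (hab : a ≠ b) (κ p : ℤ) : md a b κ p a = κ := by simp [md, Pi.single_eq_of_ne hab]

omit [Fintype d] in
lemma md_b (hab : a ≠ b) (κ p : ℤ) : md a b κ p b = p := by
  simp [md, Pi.single_eq_of_ne hab.symm]

omit [Fintype d] in
lemma md_plane (κ p : ℤ) : Plane a b (md a b κ p) := fun j ha hb => by
  simp [md, Pi.single_eq_of_ne ha, Pi.single_eq_of_ne hb]

omit [Fintype d] in
lemma Plane.eq_md (hab : a ≠ b) {k : d → ℤ} (h : Plane a b k) : k = md a b (k a) (k b) := by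
  funext j
  by_cases ha : j = a
  · rw [ha, md_a hab]
  · by_cases hb : j = b
    · rw [hb, md_b hab]
    · rw [h j ha hb, md_plane _ _ j ha hb]

omit [Fintype d] in
lemma md_sub (κ p l q : ℤ) : md a b κ p - md a b l q = md a b (κ - l) (p - q) := by
  simp only [md, Pi.single_sub]; abel

omit [DecidableEq d] in
lemma sum_plane (hab : a ≠ b) {k : d → ℤ} (h : Plane a b k) (F : d → ℂ) :
    ∑ j, (xi ℓ k j : ℂ) * F j = xi ℓ k a * F a + xi ℓ k b * F b := by
  refine Finset.sum_eq_add_of_mem a b (Finset.mem_univ _) (Finset.mem_univ _) hab fun c _ hc => ?_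
  simp [xi, h c hc.1 hc.2]

lemma nl_eq (δ : ℂ) (X : ℕ → ℤ → CT T) (hX : ∀ (p : ℕ) (κ : ℤ), (p : ℤ) < |κ| → X p κ = 0) (q r p : ℕ)
    (hq : q ≤ p) (κ : ℤ) (t : Icc (0 : ℝ) T) :
    nl δ X q r κ t = ∑ l ∈ II p, coef δ q r l (κ - l) * (X q l t * X r (κ - l) t) := by
  rw [nl_apply]
  have h1 : ∀ l, (∑ m ∈ II r, if l + m = κ then coef δ q r l m * (X q l t * X r m t) else 0) =
      coef δ q r l (κ - l) * (X q l t * X r (κ - l) t) := by
    intro l
    have h2 : ∀ m, l + m = κ ↔ κ - l = m := fun m => by omega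
    simp only [h2]
    rw [Finset.sum_ite_eq]
    split_ifs with h
    · rfl
    · rw [mem_II] at h
      rw [hX r (κ - l) (by omega)]; simp
  simp only [h1]
  refine Finset.sum_subset (fun l hl => ?_) fun l _ hl => ?_
  · rw [mem_II] at hl ⊢; omega
  · rw [mem_II] at hl
    rw [hX q l (by omega)]; simp

lemma duh_smul (hT : 0 ≤ T) (μ w : ℂ) (R : CT T) : duh hT μ (w • R) = w • duh hT μ R := by
  have := duh_sum hT μ {()} (fun _ => w) (fun _ => R)
  simpa using this.symm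

theorem Sol.ident (hℓ : ∀ j, 0 < ℓ j) (hT : 0 < T) (hν : 0 < ν) (h : Sol ℓ T ν U P)
    (hab : a ≠ b) (hb : ℓ b = 1) (A : ℝ)
    (h0 : ∀ i k, k b ≤ 0 → co ℓ (U i) k 0 = 0)
    (h1 : ∀ i k, ¬ Plane a b k → co ℓ (U i) k 0 = 0)
    (h2 : ∀ (p : ℕ) (κ : ℤ), co ℓ (U a) (md a b κ p) 0 =
      2 * π * p * (Complex.I * (ℓ a / (4 * π ^ 2)) * A ^ p * g0 p κ)) (p : ℕ) : 1 ≤ p →
    (∀ k : d → ℤ, k b = (p : ℤ) → ¬ Plane a b k → ∀ i t, t ∈ Icc 0 T → co ℓ (U i) k t = 0) ∧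
    (∀ (κ : ℤ) (t : Icc (0 : ℝ) T),
      co ℓ (U a) (md a b κ p) t = 2 * π * p * (Complex.I * (ℓ a / (4 * π ^ 2)) * A ^ p *
        G hT.le (4 * π ^ 2 * ν) ((1 / ℓ a ^ 2 : ℝ) : ℂ) p κ t) ∧
      co ℓ (U b) (md a b κ p) t = -(2 * π * κ / ℓ a) * (Complex.I * (ℓ a / (4 * π ^ 2)) * A ^ p *
        G hT.le (4 * π ^ 2 * ν) ((1 / ℓ a ^ 2 : ℝ) : ℂ) p κ t)) := by
  have hhalf : ∀ i k, k b ≤ 0 → ∀ t, t ∈ Icc 0 T → co ℓ (U i) k t = 0 :=
    fun i k hk t ht => h.half hℓ hT hν b h0 i k hk ht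
  set δ : ℂ := ((1 / ℓ a ^ 2 : ℝ) : ℂ) with hδ
  set X := G hT.le (4 * π ^ 2 * ν) δ with hX
  have hL : (ℓ a : ℂ) ≠ 0 := by exact_mod_cast (hℓ a).ne'
  have hpi : (π : ℂ) ≠ 0 := by exact_mod_cast Real.pi_ne_zero
  have xa : ∀ κ p : ℤ, (xi ℓ (md a b κ p) a : ℂ) = 2 * π * κ / ℓ a := by
    intro κ p; simp [xi, md_a hab]
  have xb : ∀ κ p : ℤ, (xi ℓ (md a b κ p) b : ℂ) = 2 * π * p := by
    intro κ p; simp [xi, md_b hab, hb]
  induction p using Nat.strong_induction_on with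
  | _ p ih =>
  intro hp
  have hp0 : (p : ℂ) ≠ 0 := by exact_mod_cast (by omega : p ≠ 0)
  have ihoff : ∀ l : d → ℤ, l b < p → ¬ Plane a b l → ∀ i t, t ∈ Icc 0 T →
      co ℓ (U i) l t = 0 := by
    intro l hl hpl i t ht
    by_cases h3 : l b ≤ 0
    · exact hhalf i l h3 t ht
    · exact (ih (l b).toNat (by omega) (by omega)).1 l (by omega) hpl i t ht
  constructor
  · intro k hk hpl i t ht
    have hN : ∀ j s, s ∈ Icc 0 T → NL ℓ T U j k s = 0 := by
      intro j s hs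
      refine (h.hasSum_NL hℓ hT j k hs).unique ?_
      refine HasSum.congr_fun hasSum_zero fun l => ?_
      by_cases h3 : l b ≤ 0
      · simp [hhalf _ l h3 s hs]
      by_cases h4 : (k - l) b ≤ 0
      · simp [hhalf _ _ h4 s hs]
      simp only [Pi.sub_apply] at h4
      by_cases h5 : Plane a b l
      · rw [ihoff (k - l) (by simp only [Pi.sub_apply]; omega) (fun h6 => hpl fun c ha hb => by
          have := h6 c ha hb
          rw [Pi.sub_apply, h5 c ha hb] at this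
          simpa using this) j s hs, mul_zero]
      · simp [fun i => ihoff l (by omega) h5 i s hs]
    rw [h.duhamel hℓ hT i k ht, h1 i k hpl, mul_zero, zero_add]
    refine intervalIntegral.integral_zero_ae (Eventually.of_forall fun s hs => ?_)
    rw [uIoc_of_le ht.1] at hs
    have hs' : s ∈ Icc 0 T := ⟨hs.1.le, hs.2.trans ht.2⟩
    simp [rr, hN _ s hs']
  · intro κ
    set c0 : ℂ := Complex.I * (ℓ a / (4 * π ^ 2)) with hc0
    have hN : ∀ i (s : Icc (0 : ℝ) T), NL ℓ T U i (md a b κ p) s =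
        ∑ q ∈ Finset.Ico 1 p, ∑ l ∈ II p, Complex.I * ((2 * π * κ / ℓ a * (2 * π * q) -
          2 * π * p * (2 * π * l / ℓ a)) * (c0 * A ^ q * X q l s)) *
            co ℓ (U i) (md a b (κ - l) ((p - q : ℕ) : ℤ)) s := by
      intro i s
      have hs := h.hasSum_NL hℓ hT i (md a b κ p) s.2
      simp only [sum_plane hab (md_plane κ p), xa, xb] at hs
      have hinj : Function.Injective fun x : ℕ × ℤ => md a b x.2 x.1 := by
        intro x y hxy
        have e1 := congrFun hxy a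
        have e2 := congrFun hxy b
        simp only [md_a hab, md_b hab] at e1 e2
        exact Prod.ext (by exact_mod_cast e2) e1
      rw [← hinj.hasSum_iff (fun l hl => ?_)] at hs
      · refine hs.unique ?_
        rw [← Finset.sum_product' (Finset.Ico 1 p) (II p) (fun (q : ℕ) (l : ℤ) =>
          Complex.I * ((2 * π * κ / ℓ a * (2 * π * q) -
          2 * π * p * (2 * π * l / ℓ a)) * (c0 * A ^ q * X q l s)) *
            co ℓ (U i) (md a b (κ - l) ((p - q : ℕ) : ℤ)) s)]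
        have e3 : ∀ x ∈ Finset.Ico 1 p ×ˢ II p, Complex.I * ((2 * π * κ / ℓ a * (2 * π * x.1) -
            2 * π * p * (2 * π * x.2 / ℓ a)) * (c0 * A ^ x.1 * X x.1 x.2 s)) *
              co ℓ (U i) (md a b (κ - x.2) ((p - x.1 : ℕ) : ℤ)) s =
            ((fun l => Complex.I * (2 * π * κ / ℓ a * co ℓ (U a) l s +
              2 * π * ((p : ℤ) : ℂ) * co ℓ (U b) l s) * co ℓ (U i) (md a b κ p - l) s) ∘
              fun x : ℕ × ℤ => md a b x.2 x.1) x := by
          intro x hx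
          rw [Finset.mem_product, Finset.mem_Ico] at hx
          simp only [Function.comp]
          rw [((ih x.1 hx.1.2 hx.1.1).2 x.2 s).1, ((ih x.1 hx.1.2 hx.1.1).2 x.2 s).2, md_sub,
            Nat.cast_sub hx.1.2.le]
          push_cast
          ring
        rw [Finset.sum_congr rfl e3]
        refine hasSum_sum_of_ne_finset_zero fun x hx => ?_
        simp only [Function.comp]
        by_cases h3 : x.1 = 0
        · rw [hhalf a _ (by rw [md_b hab, h3]; rfl) _ s.2,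
            hhalf b _ (by rw [md_b hab, h3]; rfl) _ s.2]
          simp
        by_cases h4 : p ≤ x.1
        · rw [hhalf i _ (by rw [md_sub, md_b hab]; omega) _ s.2, mul_zero]
        rw [Finset.mem_product, Finset.mem_Ico, mem_II] at hx
        have h5 : X x.1 x.2 = 0 := G_zero _ _ _ _ _ (by omega)
        rw [((ih x.1 (by omega) (by omega)).2 x.2 s).1, ((ih x.1 (by omega) (by omega)).2 x.2 s).2,
          h5]
        simp
      · by_cases h3 : l b ≤ 0
        · simp [hhalf _ l h3 s s.2]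
        by_cases h4 : (p : ℤ) ≤ l b
        · rw [hhalf i _ (by rw [Pi.sub_apply, md_b hab]; omega) _ s.2, mul_zero]
        have h5 : ¬ Plane a b l := by
          intro h6
          refine hl ⟨((l b).toNat, l a), ?_⟩
          simp only
          rw [Int.toNat_of_nonneg (by omega)]
          exact (h6.eq_md hab).symm
        simp [fun i => ihoff l (by omega) h5 i s s.2]
    have hlam : lam δ p κ ≠ 0 := by
      have : lam δ p κ = (((p : ℝ) ^ 2 + 1 / ℓ a ^ 2 * (κ : ℝ) ^ 2 : ℝ) : ℂ) := by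
        simp [lam, hδ]
      rw [this]
      have hp' : (0 : ℝ) < p := by exact_mod_cast hp
      exact_mod_cast (by positivity : (p : ℝ) ^ 2 + 1 / ℓ a ^ 2 * (κ : ℝ) ^ 2 ≠ 0)
    have hQ : ((QQ ℓ (md a b κ p) : ℝ) : ℂ) = 4 * π ^ 2 * lam δ p κ := by
      have := sum_plane (ℓ := ℓ) hab (md_plane (a := a) (b := b) κ p)
        (fun j => xi ℓ (md a b κ p) j)
      unfold QQ
      push_cast
      simp only [pow_two]
      rw [this, xa, xb]
      simp only [lam, hδ]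
      push_cast
      field_simp
      ring
    set w : ℂ := 2 * π * p * (c0 * A ^ p) with hw
    have hrr : ∀ s : Icc (0 : ℝ) T, rr ℓ T U a (md a b κ p) s =
        (w • ((lam δ p κ)⁻¹ • ∑ q ∈ Finset.Ico 1 p, nl δ X q (p - q) κ)) s := by
      intro s
      unfold rr
      rw [sum_plane hab (md_plane κ p), xa, xb, hQ, hN a s, hN b s]
      simp only [ContinuousMap.smul_apply, ContinuousMap.sum_apply, smul_eq_mul, Finset.mul_sum,
        Finset.sum_div, ← Finset.sum_add_distrib, ← Finset.sum_neg_distrib]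
      refine Finset.sum_congr rfl fun q hq => ?_
      rw [Finset.mem_Ico] at hq
      rw [nl_eq δ X (fun p κ h => G_zero _ _ _ _ _ h) q (p - q) p hq.2.le]
      simp only [Finset.mul_sum]
      refine Finset.sum_congr rfl fun l _ => ?_
      rw [((ih (p - q) (by omega) (by omega)).2 (κ - l) s).1,
        ((ih (p - q) (by omega) (by omega)).2 (κ - l) s).2]
      have e1 : (A : ℂ) ^ p = A ^ q * A ^ (p - q) := by
        rw [← pow_add, Nat.add_sub_cancel' hq.2.le]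
      have e2 : lam δ p κ = ((p : ℂ) ^ 2 * ℓ a ^ 2 + κ ^ 2) / ℓ a ^ 2 := by
        simp only [lam, hδ]; push_cast; field_simp
      have e3 : ((p : ℂ) ^ 2 * ℓ a ^ 2 + κ ^ 2) ≠ 0 := by
        intro h3; apply hlam; rw [e2, h3, zero_div]
      rw [hw, e1, e2]
      simp only [coef, hδ, hc0]
      rw [Nat.cast_sub hq.2.le]
      generalize (A : ℂ) ^ q = A1
      generalize (A : ℂ) ^ (p - q) = A2
      generalize X q l s = Y1
      generalize X (p - q) (κ - l) s = Y2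
      have e4 : (κ : ℂ) ^ 2 + (p : ℂ) ^ 2 * ℓ a ^ 2 ≠ 0 := by rwa [add_comm]
      have e5 : ((κ : ℂ) ^ 2 + (p : ℂ) ^ 2 * ℓ a ^ 2) *
        ((κ : ℂ) ^ 2 + (p : ℂ) ^ 2 * ℓ a ^ 2)⁻¹ = 1 := mul_inv_cancel₀ e4
      push_cast
      field_simp
      rw [Complex.I_sq]
      ring_nf
      linear_combination (-16 * A1 * A2 * Y1 * Y2 * ((κ : ℂ) * q * p - κ * q ^ 2 + q * p * l -
        p ^ 2 * l)) * e5
    have ha : ∀ t : Icc (0 : ℝ) T, co ℓ (U a) (md a b κ p) t = 2 * π * p * (c0 * A ^ p * X p κ t) := by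
      intro t
      rw [ode_sol_duh hT.le ((ν * QQ ℓ (md a b κ p) : ℝ) : ℂ) _
        (w • ((lam δ p κ)⁻¹ • ∑ q ∈ Finset.Ico 1 p, nl δ X q (p - q) κ))
        (co_continuousOn hℓ (h.hU a) _) (fun s hs => by
          rw [← hrr ⟨s, Ioo_subset_Icc_self hs⟩]; exact h.ode hℓ hT a _ hs) t, duh_smul, h2]
      have e1 : ((ν * QQ ℓ (md a b κ p) : ℝ) : ℂ) = ((4 * π ^ 2 * ν : ℝ) : ℂ) * lam δ p κ := by
        rw [Complex.ofReal_mul, hQ]; push_cast; ring
      rw [e1, hX, G_eq]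
      simp only [ContinuousMap.add_apply, ContinuousMap.smul_apply, smul_eq_mul, hw]
      ring
    intro t
    refine ⟨ha t, ?_⟩
    have h3 := h.div_co hℓ hT (md a b κ p) t.2
    rw [sum_plane hab (md_plane κ p), xa, xb, ha t] at h3
    have h4 : (2 * π * ((p : ℤ) : ℂ)) ≠ 0 := by
      push_cast; exact mul_ne_zero (mul_ne_zero two_ne_zero hpi) hp0
    apply mul_left_cancel₀ h4
    push_cast at h3 ⊢
    linear_combination h3

/-- A solution with amplitude `A` forces `‖F_p‖ ≲ p A^{-p}`. -/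
theorem Sol.decay (hℓ : ∀ j, 0 < ℓ j) (hT : 0 < T) (hν : 0 < ν) (h : Sol ℓ T ν U P)
    (hab : a ≠ b) (hb : ℓ b = 1) (θ : ℝ) (hθ : 0 < θ)
    (h0 : ∀ i k, k b ≤ 0 → co ℓ (U i) k 0 = 0)
    (h1 : ∀ i k, ¬ Plane a b k → co ℓ (U i) k 0 = 0)
    (h2 : ∀ (p : ℕ) (κ : ℤ), co ℓ (U a) (md a b κ p) 0 =
      2 * π * p * (Complex.I * (ℓ a / (4 * π ^ 2)) * ((2 / θ : ℝ) : ℂ) ^ p * g0 p κ)) :
    ∀ᶠ p in atTop, ‖Fm hT.le (4 * π ^ 2 * ν) ((1 / ℓ a ^ 2 : ℝ) : ℂ) p ⟨T, hT.le, le_rfl⟩‖ ≤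
      θ ^ p := by
  obtain ⟨M, hM0, hM⟩ := (h.hU a).bound hℓ
  have hL := hℓ a
  set c : ℝ := 2 * π / ℓ a * M with hc
  have hc0 : 0 ≤ c := by positivity
  have hlim : Tendsto (fun p : ℕ => 3 * c * ((p : ℝ) ^ 1 / 2 ^ p)) atTop (𝓝 (3 * c * 0)) :=
    (tendsto_pow_const_div_const_pow_of_one_lt 1 (by norm_num : (1 : ℝ) < 2)).const_mul _
  rw [mul_zero] at hlim
  filter_upwards [hlim.eventually (gt_mem_nhds one_pos), eventually_ge_atTop 1] with p hp1 hp
  have hp' : (1 : ℝ) ≤ p := by exact_mod_cast hp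
  have h3 : ∀ κ, (p : ℝ) *
      ‖G hT.le (4 * π ^ 2 * ν) ((1 / ℓ a ^ 2 : ℝ) : ℂ) p κ ⟨T, hT.le, le_rfl⟩‖ ≤
        c * (θ / 2) ^ p := by
    intro κ
    have h4 := ((h.ident hℓ hT hν hab hb (2 / θ) h0 h1 h2 p hp).2 κ ⟨T, hT.le, le_rfl⟩).1
    have h5 := norm_co_le (ℓ := ℓ) (fun x => hM x T ⟨hT.le, le_rfl⟩) (md a b κ p)
    simp only at h4
    rw [h4] at h5
    generalize G hT.le (4 * π ^ 2 * ν) ((1 / ℓ a ^ 2 : ℝ) : ℂ) p κ ⟨T, hT.le, le_rfl⟩ = Y at h5 ⊢
    have h6 : 2 * (π : ℂ) * p * (Complex.I * (ℓ a / (4 * π ^ 2)) * ((2 / θ : ℝ) : ℂ) ^ p * Y) =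
        ((p * (ℓ a / (2 * π)) * (2 / θ) ^ p : ℝ) : ℂ) * (Complex.I * Y) := by
      have hpi : (π : ℂ) ≠ 0 := by exact_mod_cast Real.pi_ne_zero
      push_cast; field_simp; ring
    rw [h6, norm_mul, norm_mul, Complex.norm_I, one_mul, Complex.norm_real, Real.norm_eq_abs,
      abs_of_nonneg (by positivity)] at h5
    have h7 : (p : ℝ) * ‖Y‖ = (p * (ℓ a / (2 * π)) * (2 / θ) ^ p * ‖Y‖) *
        (2 * π / ℓ a * (θ / 2) ^ p) := by
      rw [div_pow, div_pow]; field_simp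
    rw [h7, hc]
    calc _ ≤ M * (2 * π / ℓ a * (θ / 2) ^ p) := by gcongr
      _ = _ := by ring
  have h8 : ‖Fm hT.le (4 * π ^ 2 * ν) ((1 / ℓ a ^ 2 : ℝ) : ℂ) p ⟨T, hT.le, le_rfl⟩‖ ≤
      ∑ _κ ∈ II p, c * (θ / 2) ^ p := by
    unfold Fm
    rw [ContinuousMap.sum_apply]
    refine (norm_sum_le _ _).trans (Finset.sum_le_sum fun κ hκ => le_trans ?_ (h3 κ))
    rw [ContinuousMap.smul_apply, norm_smul, Complex.norm_intCast]
    have : |(κ : ℝ)| ≤ p := by exact_mod_cast mem_II.1 hκ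
    gcongr
  refine h8.trans ?_
  rw [Finset.sum_const, nsmul_eq_mul]
  have h9 : ((II p).card : ℝ) ≤ 3 * p := by
    have : (II p).card = 2 * p + 1 := by simp only [II, Int.card_Icc]; omega
    rw [this]; push_cast; linarith
  calc _ ≤ 3 * p * (c * (θ / 2) ^ p) := by gcongr
    _ = 3 * c * ((p : ℝ) ^ 1 / 2 ^ p) * θ ^ p := by rw [div_pow]; ring
    _ ≤ 1 * θ ^ p := by gcongr
    _ = _ := one_mul _

/-- the exceptional set of periods is null -/
theorem ae_good (hT : 0 < T) (hν : 0 < ν) :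
    ∀ᵐ L : ℝ, 0 < L → ∃ θ : ℝ, 0 < θ ∧ ¬ ∀ᶠ p in atTop,
      ‖Fm hT.le (4 * π ^ 2 * ν) ((1 / L ^ 2 : ℝ) : ℂ) p ⟨T, hT.le, le_rfl⟩‖ ≤ θ ^ p := by
  have h1 := null_bad hT (4 * π ^ 2 * ν) (by positivity)
  have h2 := addHaar_image_eq_zero_of_differentiableOn_of_addHaar_eq_zero volume
    (f := fun x : ℝ => (Real.sqrt x)⁻¹) (fun x hx =>
      (((Real.hasDerivAt_sqrt hx.1.ne').differentiableAt).inv
        (Real.sqrt_pos.2 hx.1).ne').differentiableWithinAt) h1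
  rw [ae_iff]
  refine measure_mono_null (fun L hL => ?_) h2
  simp only [mem_ofPred_eq] at hL
  push Not at hL
  refine ⟨1 / L ^ 2, ⟨by have := hL.1; positivity, hL.2⟩, ?_⟩
  simp only
  rw [one_div, Real.sqrt_inv, Real.sqrt_sq hL.1.le, inv_inv]

end H710NS
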