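import Pool.Agent.H710Z.NS.Four
import Pool.Agent.H710Z.NS.Duh

/-! From the Navier–Stokes system to the ODE system for the Fourier coefficients, and the
invariance of the Fourier half-lattice. -/

open Set MeasureTheory Filter
open scoped ContDiff Topology Real

namespace H710NS

variable {d : Type*} [Fintype d] [DecidableEq d]

/-- spatial partial derivative -/
noncomputable abbrev Dx (T : ℝ) (j : d) (f : (d → ℝ) × ℝ → ℂ) : (d → ℝ) × ℝ → ℂ :=
  DD T (Pi.single j 1, 0) f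

structure Sol (ℓ : d → ℝ) (T ν : ℝ) (U : d → (d → ℝ) × ℝ → ℂ) (P : (d → ℝ) × ℝ → ℂ) : Prop where
  hU : ∀ i, Good ℓ T (U i)
  hP : Good ℓ T P
  mom : ∀ i x t, t ∈ Ioo 0 T → DD T (0, 1) (U i) (x, t) +
    ∑ j, U j (x, t) * Dx T j (U i) (x, t) =
      ν * ∑ j, Dx T j (Dx T j (U i)) (x, t) - Dx T i P (x, t)
  div : ∀ x t, t ∈ Ioo 0 T → ∑ j, Dx T j (U j) (x, t) = 0

variable {ℓ : d → ℝ} {T ν : ℝ} {U : d → (d → ℝ) × ℝ → ℂ} {P : (d → ℝ) × ℝ → ℂ}

noncomputable def NL (ℓ : d → ℝ) (T : ℝ) (U : d → (d → ℝ) × ℝ → ℂ) (i : d) (k : d → ℤ)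
    (t : ℝ) : ℂ := co ℓ (fun z => ∑ j, U j z * Dx T j (U i) z) k t

noncomputable def QQ (ℓ : d → ℝ) (k : d → ℤ) : ℝ := ∑ j, xi ℓ k j ^ 2

noncomputable def rr (ℓ : d → ℝ) (T : ℝ) (U : d → (d → ℝ) × ℝ → ℂ) (i : d) (k : d → ℤ)
    (t : ℝ) : ℂ :=
  - NL ℓ T U i k t + xi ℓ k i * (∑ j, xi ℓ k j * NL ℓ T U j k t) / QQ ℓ k

lemma Sol.goodNL (hT : 0 < T) (h : Sol ℓ T ν U P) (i : d) :
    Good ℓ T (fun z => ∑ j, U j z * Dx T j (U i) z) :=
  Good.sum _ fun j _ => (h.hU j).mul ((h.hU i).DD hT _)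

lemma Sol.div_co (hℓ : ∀ j, 0 < ℓ j) (hT : 0 < T) (h : Sol ℓ T ν U P) (k : d → ℤ) {t : ℝ}
    (ht : t ∈ Icc 0 T) : ∑ j, (xi ℓ k j : ℂ) * co ℓ (U j) k t = 0 := by
  have h1 : EqOn (fun t => ∑ j, (xi ℓ k j : ℂ) * co ℓ (U j) k t) (fun _ => 0) (Ioo 0 T) := by
    intro s hs
    have hs' := Ioo_subset_Icc_self hs
    have h2 := co_sum hℓ Finset.univ (F := fun j => Dx T j (U j))
      (fun j _ => (h.hU j).DD hT _) hs' k
    rw [co_congr (g := fun _ => 0) (fun x => h.div x s hs)] at h2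
    simp only [co_DD hℓ hT (h.hU _) hs', mul_assoc, ← Finset.mul_sum] at h2
    have h3 : co ℓ (fun _ => (0 : ℂ)) k s = 0 := by simp [co]
    rw [h3] at h2
    exact (mul_eq_zero.1 h2.symm).resolve_left Complex.I_ne_zero
  refine h1.of_subset_closure ?_ continuousOn_const Ioo_subset_Icc_self
    (by rw [closure_Ioo hT.ne]) ht
  exact continuousOn_finsetSum _ fun j _ =>
    continuousOn_const.mul (co_continuousOn hℓ (h.hU j) k)

omit [Fintype d] [DecidableEq d] in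
lemma xi_sub (k l : d → ℤ) (j : d) : xi ℓ (k - l) j = xi ℓ k j - xi ℓ l j := by
  simp only [xi, Pi.sub_apply]; push_cast; ring

lemma Sol.hasSum_NL (hℓ : ∀ j, 0 < ℓ j) (hT : 0 < T) (h : Sol ℓ T ν U P) (i : d) (k : d → ℤ)
    {t : ℝ} (ht : t ∈ Icc 0 T) :
    HasSum (fun l => Complex.I * (∑ j, (xi ℓ k j : ℂ) * co ℓ (U j) l t) * co ℓ (U i) (k - l) t)
      (NL ℓ T U i k t) := by
  unfold NL
  rw [co_sum hℓ Finset.univ (fun j _ => (h.hU j).mul ((h.hU i).DD hT _)) ht]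
  have h1 := hasSum_sum (s := Finset.univ)
    fun j _ => co_mul hℓ hT (h.hU j) ((h.hU i).DD hT (Pi.single j 1, 0)) ht k
  refine HasSum.congr_fun h1 fun l => ?_
  simp only [co_DD hℓ hT (h.hU i) ht, xi_sub]
  have h2 := h.div_co hℓ hT l ht
  calc Complex.I * (∑ j, (xi ℓ k j : ℂ) * co ℓ (U j) l t) * co ℓ (U i) (k - l) t
      = Complex.I * ((∑ j, (xi ℓ k j : ℂ) * co ℓ (U j) l t) -
          ∑ j, (xi ℓ l j : ℂ) * co ℓ (U j) l t) * co ℓ (U i) (k - l) t := by rw [h2, sub_zero]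
    _ = _ := by
      rw [← Finset.sum_sub_distrib, Finset.mul_sum, Finset.sum_mul]
      refine Finset.sum_congr rfl fun j _ => ?_
      push_cast; ring

lemma Sol.ode0 (hℓ : ∀ j, 0 < ℓ j) (hT : 0 < T) (h : Sol ℓ T ν U P) (i : d) (k : d → ℤ)
    {t : ℝ} (ht : t ∈ Ioo 0 T) :
    HasDerivAt (co ℓ (U i) k) (-(ν * QQ ℓ k : ℝ) * co ℓ (U i) k t -
      Complex.I * xi ℓ k i * co ℓ P k t - NL ℓ T U i k t) t := by
  have ht' := Ioo_subset_Icc_self ht
  have h1 := co_hasDerivAt hℓ hT (h.hU i) ht k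
  have hD : ∀ j, Good ℓ T (Dx T j (U i)) := fun j => (h.hU i).DD hT _
  have hDD : Good ℓ T fun z => ∑ j, Dx T j (Dx T j (U i)) z :=
    Good.sum _ fun j _ => (hD j).DD hT _
  have h2 : co ℓ (DD T (0, 1) (U i)) k t = co ℓ (fun z => (ν : ℂ) * (∑ j, Dx T j (Dx T j (U i)) z)
      + ((-1) * Dx T i P z + (-1) * ∑ j, U j z * Dx T j (U i) z)) k t := by
    refine co_congr (fun x => ?_) k
    have := h.mom i x t ht
    linear_combination this
  rw [co_add hℓ (hDD.const_mul _) (((h.hP.DD hT _).const_mul _).add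
      ((h.goodNL hT i).const_mul _)) ht',
    co_add hℓ ((h.hP.DD hT _).const_mul _) ((h.goodNL hT i).const_mul _) ht',
    co_const_mul, co_const_mul, co_const_mul, co_DD hℓ hT h.hP ht',
    co_sum hℓ _ (fun j _ => (hD j).DD hT _) ht'] at h2
  simp only [co_DD hℓ hT (hD _) ht', co_DD hℓ hT (h.hU i) ht'] at h2
  have h3 : ∑ j, Complex.I * xi ℓ k j * (Complex.I * xi ℓ k j * co ℓ (U i) k t) =
      -(QQ ℓ k : ℝ) * co ℓ (U i) k t := by
    unfold QQ
    push_cast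
    rw [neg_mul, Finset.sum_mul, ← Finset.sum_neg_distrib]
    refine Finset.sum_congr rfl fun j _ => ?_
    linear_combination ((xi ℓ k j : ℂ) ^ 2 * co ℓ (U i) k t) * Complex.I_sq
  rw [h3] at h2
  rw [h2] at h1
  convert h1 using 1
  unfold NL
  push_cast
  ring

omit [DecidableEq d] in
lemma QQ_nonneg (k : d → ℤ) : 0 ≤ QQ ℓ k := Finset.sum_nonneg fun _ _ => sq_nonneg _

lemma Sol.ode (hℓ : ∀ j, 0 < ℓ j) (hT : 0 < T) (h : Sol ℓ T ν U P) (i : d) (k : d → ℤ)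
    {t : ℝ} (ht : t ∈ Ioo 0 T) :
    HasDerivAt (co ℓ (U i) k) (-((ν * QQ ℓ k : ℝ) : ℂ) * co ℓ (U i) k t + rr ℓ T U i k t) t := by
  have ht' := Ioo_subset_Icc_self ht
  have h1 : HasDerivAt (fun s => ∑ j, (xi ℓ k j : ℂ) * co ℓ (U j) k s)
      (∑ j, (xi ℓ k j : ℂ) * (-(ν * QQ ℓ k : ℝ) * co ℓ (U j) k t -
        Complex.I * xi ℓ k j * co ℓ P k t - NL ℓ T U j k t)) t :=
    HasDerivAt.fun_sum fun j _ => (h.ode0 hℓ hT j k ht).const_mul _
  have h2 : HasDerivAt (fun s => ∑ j, (xi ℓ k j : ℂ) * co ℓ (U j) k s) 0 t := by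
    refine (hasDerivAt_const t (0 : ℂ)).congr_of_eventuallyEq ?_
    filter_upwards [Icc_mem_nhds ht.1 ht.2] with s hs
    exact h.div_co hℓ hT k hs
  have h3 := h1.unique h2
  have h4 : ∑ j, (xi ℓ k j : ℂ) * (-(ν * QQ ℓ k : ℝ) * co ℓ (U j) k t -
        Complex.I * xi ℓ k j * co ℓ P k t - NL ℓ T U j k t) =
      -(ν * QQ ℓ k : ℝ) * (∑ j, (xi ℓ k j : ℂ) * co ℓ (U j) k t) -
        Complex.I * (QQ ℓ k : ℝ) * co ℓ P k t - ∑ j, (xi ℓ k j : ℂ) * NL ℓ T U j k t := by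
    generalize ((ν * QQ ℓ k : ℝ) : ℂ) = w
    unfold QQ
    push_cast
    simp only [Finset.mul_sum, Finset.sum_mul, ← Finset.sum_sub_distrib]
    exact Finset.sum_congr rfl fun j _ => by ring
  rw [h4, h.div_co hℓ hT k ht'] at h3
  have h5 := h.ode0 hℓ hT i k ht
  have h6 : - (Complex.I * xi ℓ k i * co ℓ P k t) =
      xi ℓ k i * (∑ j, xi ℓ k j * NL ℓ T U j k t) / QQ ℓ k := by
    by_cases hQ : QQ ℓ k = 0
    · have : xi ℓ k i ^ 2 = 0 :=
        (Finset.sum_eq_zero_iff_of_nonneg fun _ _ => sq_nonneg _).1 hQ i (Finset.mem_univ _)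
      have h7 : xi ℓ k i = 0 := by simpa using this
      simp [h7]
    · have hQ' : ((QQ ℓ k : ℝ) : ℂ) ≠ 0 := by exact_mod_cast hQ
      rw [eq_div_iff hQ']
      linear_combination (xi ℓ k i : ℂ) * h3
  convert h5 using 1
  unfold rr
  rw [← h6]
  ring

lemma Sol.rr_cont (hℓ : ∀ j, 0 < ℓ j) (hT : 0 < T) (h : Sol ℓ T ν U P) (i : d) (k : d → ℤ) :
    ContinuousOn (rr ℓ T U i k) (Icc 0 T) := by
  have h1 : ∀ j, ContinuousOn (NL ℓ T U j k) (Icc 0 T) :=
    fun j => co_continuousOn hℓ (h.goodNL hT j) k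
  unfold rr
  exact (h1 i).neg.add ((continuousOn_const.mul (continuousOn_finsetSum _ fun j _ =>
    continuousOn_const.mul (h1 j))).div_const _)

lemma Sol.duhamel (hℓ : ∀ j, 0 < ℓ j) (hT : 0 < T) (h : Sol ℓ T ν U P) (i : d) (k : d → ℤ)
    {t : ℝ} (ht : t ∈ Icc 0 T) :
    co ℓ (U i) k t = Complex.exp (-((ν * QQ ℓ k : ℝ) : ℂ) * t) * co ℓ (U i) k 0 +
      ∫ s in (0 : ℝ)..t, Complex.exp (-((ν * QQ ℓ k : ℝ) : ℂ) * ((t : ℝ) - s)) * rr ℓ T U i k s :=
  ode_sol _ _ _ (co_continuousOn hℓ (h.hU i) k) (h.rr_cont hℓ hT i k)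
    (fun _ hs => h.ode hℓ hT i k hs) t ht

lemma norm_rr_le (i : d) (k : d → ℤ) (t B : ℝ) (hB : ∀ j, ‖NL ℓ T U j k t‖ ≤ B) :
    ‖rr ℓ T U i k t‖ ≤ (1 + Fintype.card d) * B := by
  have hB0 : 0 ≤ B := (norm_nonneg _).trans (hB i)
  unfold rr
  refine (norm_add_le _ _).trans ?_
  rw [norm_neg, add_mul, one_mul]
  refine add_le_add (hB i) ?_
  set X := ∑ j, |xi ℓ k j| with hX
  have hX2 : X ^ 2 ≤ Fintype.card d * QQ ℓ k := by
    have := sq_sum_le_card_mul_sum_sq (s := Finset.univ) (f := fun j => |xi ℓ k j|)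
    simpa [QQ] using this
  have h1 : ‖∑ j, (xi ℓ k j : ℂ) * NL ℓ T U j k t‖ ≤ X * B := by
    rw [hX, Finset.sum_mul]
    refine (norm_sum_le _ _).trans (Finset.sum_le_sum fun j _ => ?_)
    rw [norm_mul, Complex.norm_real, Real.norm_eq_abs]
    exact mul_le_mul_of_nonneg_left (hB j) (abs_nonneg _)
  have h2 : |xi ℓ k i| ≤ X :=
    Finset.single_le_sum (f := fun j => |xi ℓ k j|) (fun _ _ => abs_nonneg _) (Finset.mem_univ i)
  rw [norm_div, norm_mul, Complex.norm_real, Complex.norm_real, Real.norm_eq_abs,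
    Real.norm_eq_abs, abs_of_nonneg (QQ_nonneg k)]
  rcases (QQ_nonneg (ℓ := ℓ) k).eq_or_lt with hQ | hQ
  · rw [← hQ, div_zero]; positivity
  · rw [div_le_iff₀ hQ]
    have hX0 : 0 ≤ X := (abs_nonneg _).trans h2
    calc _ ≤ X * (X * B) := mul_le_mul h2 h1 (norm_nonneg _) hX0
      _ = X ^ 2 * B := by ring
      _ ≤ Fintype.card d * QQ ℓ k * B := mul_le_mul_of_nonneg_right hX2 hB0
      _ = _ := by ring

/-- Modes with nonpositive `b`-frequency stay zero. -/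
lemma Sol.half (hℓ : ∀ j, 0 < ℓ j) (hT : 0 < T) (hν : 0 < ν) (h : Sol ℓ T ν U P) (b : d)
    (h0 : ∀ i k, k b ≤ 0 → co ℓ (U i) k 0 = 0) (i : d) (k : d → ℤ) (hk : k b ≤ 0) {t : ℝ}
    (ht : t ∈ Icc 0 T) : co ℓ (U i) k t = 0 := by
  choose mm hmm1 hmm2 using fun i => co_majorant hℓ hT (h.hU i)
  have hmm0 : ∀ i k, 0 ≤ mm i k := fun i k =>
    (norm_nonneg _).trans (hmm2 i k 0 ⟨le_rfl, hT.le⟩)
  set m : (d → ℤ) → ℝ := fun k => ∑ i, mm i k with hm
  have hms : Summable m := summable_sum fun i _ => hmm1 i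
  have hm0 : ∀ k, 0 ≤ m k := fun k => Finset.sum_nonneg fun i _ => hmm0 i k
  have hmle : ∀ i k t, t ∈ Icc 0 T → ‖co ℓ (U i) k t‖ ≤ m k := fun i k t ht =>
    (hmm2 i k t ht).trans (Finset.single_le_sum (f := fun i => mm i k) (fun i _ => hmm0 i k)
      (Finset.mem_univ i))
  set S := ∑' k, m k with hS
  have hS0 : 0 ≤ S := tsum_nonneg hm0
  set D : ℝ := (Fintype.card d : ℝ) with hD
  have hD0 : 0 < D := by
    have : 0 < Fintype.card d := Fintype.card_pos_iff.2 ⟨b⟩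
    rw [hD]; exact_mod_cast this
  set W := 4 * S * (1 + D) with hW
  set Λ := W ^ 2 * D / ν + 1 with hΛ
  have hΛ0 : 0 < Λ := by positivity
  have key : ∀ n : ℕ, ∀ i k, k b ≤ 0 → ∀ t, t ∈ Icc 0 T →
      ‖co ℓ (U i) k t‖ ≤ S * (1 / 2) ^ n * Real.exp (Λ * t) := by
    intro n
    induction n with
    | zero =>
      intro i k _ t ht
      have h1 : m k ≤ S := hms.le_tsum k fun j _ => hm0 j
      have h2 : 1 ≤ Real.exp (Λ * t) := Real.one_le_exp (mul_nonneg hΛ0.le ht.1)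
      calc _ ≤ S := (hmle i k t ht).trans h1
        _ ≤ _ := by simpa using le_mul_of_one_le_right hS0 h2
    | succ n ih =>
      intro i k hk t ht
      set B := S * (1 / 2) ^ n with hB
      have hB0 : 0 ≤ B := by positivity
      set X := ∑ j, |xi ℓ k j| with hX
      have hX0 : 0 ≤ X := Finset.sum_nonneg fun _ _ => abs_nonneg _
      have hX2 : X ^ 2 ≤ D * QQ ℓ k := by
        have := sq_sum_le_card_mul_sum_sq (s := Finset.univ) (f := fun j => |xi ℓ k j|)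
        simpa [QQ] using this
      have hN : ∀ j s, s ∈ Icc 0 T → ‖NL ℓ T U j k s‖ ≤ X * (B * Real.exp (Λ * s)) * (S + S) := by
        intro j s hs
        rw [← (h.hasSum_NL hℓ hT j k hs).tsum_eq]
        have hsum : HasSum (fun l => m (k - l) + m l) (S + S) :=
          ((Equiv.subLeft k).hasSum_iff.2 hms.hasSum).add hms.hasSum
        refine tsum_of_norm_bounded (hsum.mul_left _) fun l => ?_
        have hE : 0 ≤ B * Real.exp (Λ * s) := by positivity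
        have hgen : ∀ β : ℝ, (∀ j', ‖co ℓ (U j') l s‖ ≤ β) →
            ‖∑ j', (xi ℓ k j' : ℂ) * co ℓ (U j') l s‖ ≤ X * β := by
          intro β hβ
          rw [hX, Finset.sum_mul]
          refine (norm_sum_le _ _).trans (Finset.sum_le_sum fun j' _ => ?_)
          rw [norm_mul, Complex.norm_real, Real.norm_eq_abs]
          exact mul_le_mul_of_nonneg_left (hβ j') (abs_nonneg _)
        rw [norm_mul, norm_mul, Complex.norm_I, one_mul]
        have hm1 := hm0 l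
        have hm2 := hm0 (k - l)
        by_cases hl : l b ≤ 0
        · calc _ ≤ X * (B * Real.exp (Λ * s)) * m (k - l) :=
                mul_le_mul (hgen _ fun j' => ih j' l hl s hs) (hmle j _ s hs) (norm_nonneg _)
                  (by positivity)
            _ ≤ _ := by gcongr; linarith
        · have hl' : (k - l) b ≤ 0 := by simp only [Pi.sub_apply]; omega
          calc _ ≤ X * m l * (B * Real.exp (Λ * s)) :=
                mul_le_mul (hgen _ fun j' => hmle j' l s hs) (ih j _ hl' s hs) (norm_nonneg _)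
                  (by positivity)
            _ = X * (B * Real.exp (Λ * s)) * m l := by ring
            _ ≤ _ := by gcongr; linarith
      have hQ0 := QQ_nonneg (ℓ := ℓ) k
      have hpos : 0 < ν * QQ ℓ k + Λ := by positivity
      rw [h.duhamel hℓ hT i k ht, h0 i k hk, mul_zero, zero_add]
      have h1 := norm_duh_integral_le ((ν * QQ ℓ k : ℝ) : ℂ) Λ ((1 + D) * (X * B * (S + S))) t ht.1
        (by rw [Complex.ofReal_re]; exact hpos) (by positivity) (rr ℓ T U i k) (fun s hs => by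
          refine (norm_rr_le i k s _ fun j => hN j s ⟨hs.1, hs.2.trans ht.2⟩).trans_eq ?_
          rw [← hD]; ring)
      refine h1.trans (mul_le_mul_of_nonneg_right ?_ (Real.exp_pos _).le)
      rw [Complex.ofReal_re, div_le_iff₀ hpos]
      have h2 : W * X ≤ ν * QQ ℓ k + Λ := by
        have h3 : ν / D * X ^ 2 ≤ ν * QQ ℓ k := by
          calc ν / D * X ^ 2 ≤ ν / D * (D * QQ ℓ k) := by gcongr
            _ = _ := by field_simp
        have h4 : W * X ≤ ν / D * X ^ 2 + W ^ 2 * D / ν := by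
          have h5 : ν / D * X ^ 2 + W ^ 2 * D / ν - W * X =
              ((ν * X - W * D / 2) ^ 2 + 3 / 4 * (W * D) ^ 2) / (ν * D) := by
            field_simp; ring
          have h6 : 0 ≤ ((ν * X - W * D / 2) ^ 2 + 3 / 4 * (W * D) ^ 2) / (ν * D) := by positivity
          linarith
        linarith
      calc (1 + D) * (X * B * (S + S)) = B * (1 / 2) * (W * X) := by rw [hW]; ring
        _ ≤ B * (1 / 2) * (ν * QQ ℓ k + Λ) := by gcongr
        _ = _ := by rw [hB, pow_succ]; ring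
  have hlim : Tendsto (fun n : ℕ => S * (1 / 2 : ℝ) ^ n * Real.exp (Λ * t)) atTop (𝓝 0) := by
    have := ((tendsto_pow_atTop_nhds_zero_of_lt_one (r := (1 / 2 : ℝ)) (by norm_num)
      (by norm_num)).const_mul S).mul_const (Real.exp (Λ * t))
    simpa using this
  exact norm_le_zero_iff.1 (ge_of_tendsto' hlim fun n => key n i k hk t ht)

end H710NS
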