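import Pool.Agent.H710Z.NS.Duh
import Pool.Agent.H710Z.NS.Interp

/-! The triangular Fourier recursion, its holomorphic dependence on the aspect ratio parameter
`δ`, an exponential upper bound, and an exponential lower bound at `δ = 0`. -/

open Set MeasureTheory Finset

namespace H710NS

variable {T : ℝ}

noncomputable def lam (δ : ℂ) (p : ℕ) (κ : ℤ) : ℂ := (p : ℂ) ^ 2 + δ * (κ : ℂ) ^ 2

noncomputable def g0 (p : ℕ) (κ : ℤ) : ℂ :=
  if p = 1 ∨ p = 2 then (if κ = -1 then 1 else if κ = 1 then -1 else 0) else 0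

noncomputable def coef (δ : ℂ) (a b : ℕ) (l m : ℤ) : ℂ :=
  ((a : ℂ) * m - l * b) * (δ * (l + m) * m + (a + b) * b)

/-- index interval `[-a, a]` -/
noncomputable def II (a : ℕ) : Finset ℤ := Finset.Icc (-(a : ℤ)) a

lemma mem_II {a : ℕ} {l : ℤ} : l ∈ II a ↔ |l| ≤ a := by simp [II, abs_le]

noncomputable def nl (δ : ℂ) (X : ℕ → ℤ → CT T) (a b : ℕ) (κ : ℤ) : CT T :=
  ∑ l ∈ II a, ∑ m ∈ II b, if l + m = κ then coef δ a b l m • (X a l * X b m) else 0

noncomputable def G (hT : 0 ≤ T) (ν : ℝ) (δ : ℂ) : ℕ → ℤ → CT T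
  | p => fun κ => g0 p κ • ex T (-(ν * lam δ p κ)) + duh hT (ν * lam δ p κ)
      ((lam δ p κ)⁻¹ • ∑ a ∈ (Finset.Ico 1 p).attach,
        ∑ l ∈ II a, ∑ m ∈ II (p - a), if l + m = κ then
          coef δ a (p - a) l m • (G hT ν δ a.1 l * G hT ν δ (p - a.1) m) else 0)
  decreasing_by
    · have := a.2; rw [Finset.mem_Ico] at this; omega
    · have := a.2; rw [Finset.mem_Ico] at this; omega

lemma G_eq (hT : 0 ≤ T) (ν : ℝ) (δ : ℂ) (p : ℕ) (κ : ℤ) :
    G hT ν δ p κ = g0 p κ • ex T (-(ν * lam δ p κ)) + duh hT (ν * lam δ p κ)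
      ((lam δ p κ)⁻¹ • ∑ a ∈ Finset.Ico 1 p, nl δ (G hT ν δ) a (p - a) κ) := by
  rw [G, ← Finset.sum_attach (Finset.Ico 1 p) (fun a => nl δ (G hT ν δ) a (p - a) κ)]
  rfl

lemma zero_smul' (f : CT T) : (0 : ℂ) • f = 0 := zero_smul ℂ f

lemma nl_zero (δ : ℂ) (X : ℕ → ℤ → CT T) (a b : ℕ) (κ : ℤ) (h : ((a + b : ℕ) : ℤ) < |κ|) :
    nl δ X a b κ = 0 := by
  unfold nl
  refine Finset.sum_eq_zero fun l hl => Finset.sum_eq_zero fun m hm => if_neg ?_
  rw [mem_II] at hl hm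
  rintro rfl
  have := abs_add_le l m
  push_cast at h
  omega

lemma g0_zero (p : ℕ) (κ : ℤ) (h : (p : ℤ) < |κ|) : g0 p κ = 0 := by
  unfold g0
  split_ifs with h1 h2 h3
  · subst h2; simp at h; omega
  · subst h3; simp at h; omega
  · rfl
  · rfl

lemma G_zero (hT : 0 ≤ T) (ν : ℝ) (δ : ℂ) (p : ℕ) (κ : ℤ) (h : (p : ℤ) < |κ|) :
    G hT ν δ p κ = 0 := by
  rw [G_eq, g0_zero p κ h, zero_smul', zero_add, Finset.sum_eq_zero, smul_zero, duh_zero]
  intro a ha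
  rw [Finset.mem_Ico] at ha
  apply nl_zero
  rwa [Nat.add_sub_cancel' ha.2.le]

lemma lam_re (δ : ℂ) (hδ : -1 / 2 < δ.re) (p : ℕ) (κ : ℤ) (h : |κ| ≤ p) :
    (p : ℝ) ^ 2 / 2 ≤ (lam δ p κ).re := by
  have h1 : (lam δ p κ).re = (p : ℝ) ^ 2 + δ.re * (κ : ℝ) ^ 2 := by
    have : lam δ p κ = (((p : ℝ) ^ 2 : ℝ) : ℂ) + δ * (((κ : ℝ) ^ 2 : ℝ) : ℂ) := by
      simp [lam]
    rw [this, Complex.add_re, Complex.ofReal_re, Complex.re_mul_ofReal]
  have h2 : (κ : ℝ) ^ 2 ≤ (p : ℝ) ^ 2 := by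
    have : |(κ : ℝ)| ≤ |(p : ℝ)| := by
      rw [abs_of_nonneg (Nat.cast_nonneg (α := ℝ) p)]; exact_mod_cast h
    exact sq_le_sq.2 this
  rw [h1]
  nlinarith [sq_nonneg (κ : ℝ)]

lemma G_diff (hT : 0 ≤ T) (ν : ℝ) (p : ℕ) :
    ∀ κ, DifferentiableOn ℂ (fun δ => G hT ν δ p κ) {z | -1 / 2 < z.re} := by
  induction p using Nat.strong_induction_on with
  | _ p ih =>
  intro κ
  by_cases hκ : (p : ℤ) < |κ|
  · simp only [G_zero hT ν _ p κ hκ]; exact differentiableOn_const _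
  rcases Nat.eq_zero_or_pos p with rfl | hp
  · have : ∀ δ, G hT ν δ 0 κ = 0 := fun δ => by rw [G_eq]; simp [g0, duh_zero, zero_smul']
    simp only [this]; exact differentiableOn_const _
  push Not at hκ
  simp only [fun δ => G_eq hT ν δ p κ]
  have hl : Differentiable ℂ fun δ => lam δ p κ := by unfold lam; fun_prop
  refine DifferentiableOn.add ?_ (duh_diff hT (hl.const_mul _).differentiableOn ?_)
  · exact (ex_diff.comp (hl.const_mul (ν : ℂ)).neg).differentiableOn.fun_const_smul _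
  · refine DifferentiableOn.smul (hl.differentiableOn.inv fun δ hδ h0 => ?_) ?_
    · have := lam_re δ hδ p κ hκ
      rw [h0] at this
      have h2 : (0 : ℝ) < (p : ℝ) ^ 2 / 2 := by positivity
      simp at this; linarith
    · refine DifferentiableOn.fun_sum fun a ha => ?_
      rw [Finset.mem_Ico] at ha
      unfold nl
      refine DifferentiableOn.fun_sum fun l _ => DifferentiableOn.fun_sum fun m _ => ?_
      by_cases h : l + m = κ
      · simp only [h, if_true]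
        refine DifferentiableOn.fun_smul ?_
          (DifferentiableOn.fun_mul (ih a ha.2 l) (ih (p - a) (by omega) m))
        unfold coef; fun_prop
      · simp only [h, if_false]; exact differentiableOn_const _

lemma norm_coef_le (δ : ℂ) (R : ℝ) (hR : ‖δ‖ ≤ R) (a b : ℕ) (l m : ℤ) (hl : |l| ≤ a)
    (hm : |m| ≤ b) : ‖coef δ a b l m‖ ≤ 2 * (R + 1) * (a + b) * (a * b * b) := by
  have hl' : ‖(l : ℂ)‖ ≤ a := by rw [Complex.norm_intCast]; exact_mod_cast hl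
  have hm' : ‖(m : ℂ)‖ ≤ b := by rw [Complex.norm_intCast]; exact_mod_cast hm
  have hR0 : 0 ≤ R := (norm_nonneg _).trans hR
  unfold coef
  rw [norm_mul]
  have h1 : ‖(a : ℂ) * m - l * b‖ ≤ 2 * (a * b) := by
    refine (norm_sub_le _ _).trans ?_
    rw [norm_mul, norm_mul, Complex.norm_natCast, Complex.norm_natCast]
    have : (a : ℝ) * ‖(m : ℂ)‖ ≤ a * b := by gcongr
    have : ‖(l : ℂ)‖ * (b : ℝ) ≤ a * b := by gcongr
    linarith
  have h2 : ‖δ * (l + m) * m + (a + b) * b‖ ≤ (R + 1) * (a + b) * b := by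
    refine (norm_add_le _ _).trans ?_
    rw [norm_mul, norm_mul, norm_mul, Complex.norm_natCast]
    have h3 : ‖(l : ℂ) + m‖ ≤ a + b := (norm_add_le _ _).trans (add_le_add hl' hm')
    have h4 : ‖(a : ℂ) + b‖ ≤ a + b := by
      refine (norm_add_le _ _).trans ?_; simp
    have h5 : ‖δ‖ * ‖(l : ℂ) + m‖ * ‖(m : ℂ)‖ ≤ R * (a + b) * b := by gcongr
    have h6 : ‖(a : ℂ) + b‖ * (b : ℝ) ≤ (a + b) * b := by gcongr
    linarith
  calc _ ≤ (2 * (a * b)) * ((R + 1) * (a + b) * b) := by gcongr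
    _ = _ := by ring

noncomputable def NN (X : ℕ → ℤ → CT T) (p : ℕ) : ℝ := ∑ κ ∈ II p, ‖X p κ‖

lemma NN_nonneg (X : ℕ → ℤ → CT T) (p : ℕ) : 0 ≤ NN X p :=
  Finset.sum_nonneg fun _ _ => norm_nonneg _

lemma sum_norm_nl_le (δ : ℂ) (R : ℝ) (hR : ‖δ‖ ≤ R) (X : ℕ → ℤ → CT T) (a b : ℕ)
    (S : Finset ℤ) : ∑ κ ∈ S, ‖nl δ X a b κ‖ ≤
      2 * (R + 1) * (a + b) * b * ((a * NN X a) * (b * NN X b)) := by
  have hR0 : 0 ≤ R := (norm_nonneg _).trans hR
  calc ∑ κ ∈ S, ‖nl δ X a b κ‖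
      ≤ ∑ κ ∈ S, ∑ l ∈ II a, ∑ m ∈ II b, if l + m = κ then
          2 * (R + 1) * (a + b) * (a * b * b) * (‖X a l‖ * ‖X b m‖) else 0 := by
        refine Finset.sum_le_sum fun κ _ => ?_
        unfold nl
        refine (norm_sum_le _ _).trans (Finset.sum_le_sum fun l hl => ?_)
        refine (norm_sum_le _ _).trans (Finset.sum_le_sum fun m hm => ?_)
        split_ifs
        · rw [norm_smul]
          exact mul_le_mul (norm_coef_le δ R hR a b l m (mem_II.1 hl) (mem_II.1 hm))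
            (norm_mul_le _ _) (norm_nonneg _) (by positivity)
        · simp
    _ = ∑ l ∈ II a, ∑ m ∈ II b, ∑ κ ∈ S, if l + m = κ then
          2 * (R + 1) * (a + b) * (a * b * b) * (‖X a l‖ * ‖X b m‖) else 0 := by
        rw [Finset.sum_comm]
        exact Finset.sum_congr rfl fun l _ => Finset.sum_comm
    _ ≤ ∑ l ∈ II a, ∑ m ∈ II b, 2 * (R + 1) * (a + b) * (a * b * b) * (‖X a l‖ * ‖X b m‖) := by
        refine Finset.sum_le_sum fun l _ => Finset.sum_le_sum fun m _ => ?_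
        rw [Finset.sum_ite_eq]
        split_ifs
        · exact le_rfl
        · positivity
    _ = _ := by
        simp only [← Finset.mul_sum]
        rw [← Finset.sum_mul]
        unfold NN
        ring

lemma sum_norm_g0_le (p : ℕ) : ∑ κ ∈ II p, ‖g0 p κ‖ ≤ if p = 1 ∨ p = 2 then 2 else 0 := by
  by_cases h : p = 1 ∨ p = 2
  · rw [if_pos h]
    calc ∑ κ ∈ II p, ‖g0 p κ‖ ≤ ∑ κ ∈ II p, ((if κ = -1 then (1 : ℝ) else 0) +
          (if κ = 1 then (1 : ℝ) else 0)) := by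
          refine Finset.sum_le_sum fun κ _ => ?_
          unfold g0
          rw [if_pos h]
          split_ifs <;> simp
      _ ≤ 2 := by
          rw [Finset.sum_add_distrib, Finset.sum_ite_eq', Finset.sum_ite_eq']
          split_ifs <;> norm_num
  · simp [g0, h]

lemma NN_bound (hT : 0 ≤ T) (ν : ℝ) (hν : 0 < ν) (R : ℝ) (hR0 : 0 ≤ R) (δ : ℂ)
    (hδ : -1 / 2 < δ.re) (hR : ‖δ‖ ≤ R) (K C : ℝ) (hK : K = ν / (16 * (R + 1)))
    (hC1 : 1 ≤ C) (hC : 8 ≤ K * C) (p : ℕ) : p * NN (G hT ν δ) p ≤ K * C ^ p := by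
  have hK0 : 0 < K := by rw [hK]; positivity
  induction p using Nat.strong_induction_on with
  | _ p ih =>
  rcases Nat.eq_zero_or_pos p with rfl | hp
  · simp [hK0.le]
  have hp' : (0 : ℝ) < p := by exact_mod_cast hp
  have h1 : ∀ κ ∈ II p, ‖G hT ν δ p κ‖ ≤ ‖g0 p κ‖ +
      4 / (ν * p ^ 4) * ∑ a ∈ Finset.Ico 1 p, ‖nl δ (G hT ν δ) a (p - a) κ‖ := by
    intro κ hκ
    have hl := lam_re δ hδ p κ (mem_II.1 hκ)
    have hpos : (0 : ℝ) < (p : ℝ) ^ 2 / 2 := by positivity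
    have hre : ν * ((p : ℝ) ^ 2 / 2) ≤ ((ν : ℂ) * lam δ p κ).re := by
      rw [Complex.re_ofReal_mul]; gcongr
    have hre0 : 0 < ((ν : ℂ) * lam δ p κ).re := lt_of_lt_of_le (by positivity) hre
    rw [G_eq]
    refine (norm_add_le _ _).trans (add_le_add ?_ ?_)
    · rw [norm_smul]
      exact mul_le_of_le_one_right (norm_nonneg _)
        (norm_ex_le _ (by rw [Complex.neg_re]; linarith))
    · refine (norm_duh_le hT _ hre0 _).trans ?_
      rw [norm_smul, norm_inv]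
      have h2 : (p : ℝ) ^ 2 / 2 ≤ ‖lam δ p κ‖ := hl.trans (Complex.re_le_norm _)
      have h3 := norm_sum_le (Finset.Ico 1 p) (fun a => nl δ (G hT ν δ) a (p - a) κ)
      calc ‖lam δ p κ‖⁻¹ * ‖∑ a ∈ Finset.Ico 1 p, nl δ (G hT ν δ) a (p - a) κ‖ /
            ((ν : ℂ) * lam δ p κ).re
          ≤ ((p : ℝ) ^ 2 / 2)⁻¹ * (∑ a ∈ Finset.Ico 1 p, ‖nl δ (G hT ν δ) a (p - a) κ‖) /
            (ν * ((p : ℝ) ^ 2 / 2)) := by gcongr
        _ = _ := by field_simp; ring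
  have h2 : ∑ κ ∈ II p, ∑ a ∈ Finset.Ico 1 p, ‖nl δ (G hT ν δ) a (p - a) κ‖ ≤
      p * (2 * (R + 1) * p * p * (K ^ 2 * C ^ p)) := by
    rw [Finset.sum_comm]
    calc _ ≤ ∑ a ∈ Finset.Ico 1 p, 2 * (R + 1) * p * p * (K ^ 2 * C ^ p) := by
          refine Finset.sum_le_sum fun a ha => (sum_norm_nl_le δ R hR _ a (p - a) _).trans ?_
          rw [Finset.mem_Ico] at ha
          have ha1 := ih a ha.2
          have ha2 := ih (p - a) (by omega)
          have e1 : (a : ℝ) + ((p - a : ℕ) : ℝ) = p := by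
            rw [Nat.cast_sub ha.2.le]; ring
          have e2 : ((p - a : ℕ) : ℝ) ≤ p := by exact_mod_cast Nat.sub_le p a
          have e3 : K * C ^ a * (K * C ^ (p - a)) = K ^ 2 * C ^ p := by
            rw [show C ^ p = C ^ a * C ^ (p - a) by rw [← pow_add, Nat.add_sub_cancel' ha.2.le]]
            ring
          rw [e1, ← e3]
          have := NN_nonneg (G hT ν δ) a
          have := NN_nonneg (G hT ν δ) (p - a)
          gcongr
      _ ≤ _ := by
          rw [Finset.sum_const, Nat.card_Ico, nsmul_eq_mul]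
          have : ((p - 1 : ℕ) : ℝ) ≤ p := by exact_mod_cast Nat.sub_le p 1
          gcongr
  have h3 : NN (G hT ν δ) p ≤ (if p = 1 ∨ p = 2 then 2 else 0) +
      4 / (ν * p ^ 4) * (p * (2 * (R + 1) * p * p * (K ^ 2 * C ^ p))) := by
    unfold NN
    refine (Finset.sum_le_sum h1).trans ?_
    rw [Finset.sum_add_distrib, ← Finset.mul_sum]
    exact add_le_add (sum_norm_g0_le p) (mul_le_mul_of_nonneg_left h2 (by positivity))
  have h4 : p * (4 / (ν * p ^ 4) * (p * (2 * (R + 1) * p * p * (K ^ 2 * C ^ p)))) =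
      K * C ^ p / 2 := by
    rw [pow_two K, hK]; field_simp; ring
  have h5 : (p : ℝ) * (if p = 1 ∨ p = 2 then 2 else 0) ≤ K * C ^ p / 2 := by
    have hCp : C ≤ C ^ p := le_self_pow₀ hC1 hp.ne'
    have : K * C ≤ K * C ^ p := by gcongr
    split_ifs with h
    · have : (p : ℝ) ≤ 2 := by rcases h with rfl | rfl <;> norm_num
      linarith
    · simp; positivity
  calc p * NN (G hT ν δ) p ≤ p * _ := mul_le_mul_of_nonneg_left h3 hp'.le
    _ ≤ _ := by rw [mul_add, h4]; linarith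

/-- the first moment -/
noncomputable def Fm (hT : 0 ≤ T) (ν : ℝ) (δ : ℂ) (p : ℕ) : CT T :=
  ∑ κ ∈ II p, (κ : ℂ) • G hT ν δ p κ

lemma norm_Fm_le (hT : 0 ≤ T) (ν : ℝ) (δ : ℂ) (p : ℕ) :
    ‖Fm hT ν δ p‖ ≤ p * NN (G hT ν δ) p := by
  unfold Fm NN
  rw [Finset.mul_sum]
  refine (norm_sum_le _ _).trans (Finset.sum_le_sum fun κ hκ => ?_)
  rw [norm_smul, Complex.norm_intCast]
  have : |(κ : ℝ)| ≤ p := by exact_mod_cast mem_II.1 hκ
  gcongr

lemma Fm_diff (hT : 0 ≤ T) (ν : ℝ) (p : ℕ) :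
    DifferentiableOn ℂ (fun δ => Fm hT ν δ p) {z | -1 / 2 < z.re} := by
  unfold Fm
  exact DifferentiableOn.fun_sum fun κ _ => (G_diff hT ν p κ).fun_const_smul _

lemma Fm_upper (hT : 0 ≤ T) (ν : ℝ) (hν : 0 < ν) (ρ : ℝ) (hρ : 0 < ρ) :
    ∃ C : ℝ, 0 < C ∧ ∀ p, 1 ≤ p → ∀ z ∈ Metric.closedBall (ρ : ℂ) (ρ + 1 / 4),
      ‖Fm hT ν z p‖ ≤ C ^ p := by
  set R := 2 * ρ + 1 / 4 with hR
  set K := ν / (16 * (R + 1)) with hK
  have hK0 : 0 < K := by positivity
  set C := max 1 (8 / K) with hC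
  have hC1 : 1 ≤ C := le_max_left _ _
  have hC2 : 8 ≤ K * C := by
    have : 8 / K ≤ C := le_max_right _ _
    rw [div_le_iff₀ hK0] at this; linarith
  refine ⟨max 1 K * C, by positivity, fun p hp z hz => ?_⟩
  rw [Metric.mem_closedBall, dist_eq_norm] at hz
  have h1 : -1 / 2 < z.re := by
    have := (abs_le.1 ((Complex.abs_re_le_norm (z - ρ)).trans hz)).1
    simp only [Complex.sub_re, Complex.ofReal_re] at this
    linarith
  have h2 : ‖z‖ ≤ R := by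
    calc ‖z‖ = ‖(z - ρ) + ρ‖ := by ring_nf
      _ ≤ ‖z - ρ‖ + ‖(ρ : ℂ)‖ := norm_add_le _ _
      _ ≤ _ := by rw [Complex.norm_real, Real.norm_eq_abs, abs_of_pos hρ]; linarith
  refine (norm_Fm_le hT ν z p).trans ((NN_bound hT ν hν R (by positivity) z h1 h2 K C hK hC1 hC2
    p).trans ?_)
  rw [mul_pow]
  have : K ≤ (max 1 K) ^ p := (le_max_right _ _).trans (le_self_pow₀ (le_max_left _ _) (by omega))
  gcongr

end H710NS
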